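import Mathlib

set_option autoImplicit false

/-!
# Exponents below one: `(X - 1)(X + 1)^(n-1)`
-/

open Polynomial

namespace Pool.Agent.H981.Sen

/-- `(X - 1)(X + 1)^(n + 1)`, of degree `n + 2` -/
noncomputable def bad (n : ℕ) : ℂ[X] := (X - C 1) * (X - C (-1)) ^ (n + 1)

lemma bad_ne (n : ℕ) : bad n ≠ 0 :=
  mul_ne_zero (X_sub_C_ne_zero _) (pow_ne_zero _ (X_sub_C_ne_zero _))

lemma bad_natDegree (n : ℕ) : (bad n).natDegree = n + 2 := by
  unfold bad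
  rw [natDegree_mul (X_sub_C_ne_zero _) (pow_ne_zero _ (X_sub_C_ne_zero _)), natDegree_X_sub_C,
    natDegree_pow, natDegree_X_sub_C]
  ring

lemma bad_roots (n : ℕ) : (bad n).roots = {1} + (n + 1) • {(-1 : ℂ)} := by
  unfold bad
  rw [roots_mul (mul_ne_zero (X_sub_C_ne_zero _) (pow_ne_zero _ (X_sub_C_ne_zero _))),
    roots_X_sub_C, roots_pow, roots_X_sub_C]

lemma bad_der (n : ℕ) : derivative (bad n) =
    C (n + 2 : ℂ) * ((X - C (-1)) ^ n * (X - C ((n : ℂ) / (n + 2)))) := by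
  have h : (n + 2 : ℂ) ≠ 0 := by exact_mod_cast (by omega : n + 2 ≠ 0)
  have e : (C (n + 2 : ℂ) : ℂ[X]) * (X - C ((n : ℂ) / (n + 2))) = C (n + 2 : ℂ) * X - C (n : ℂ) := by
    rw [mul_sub, ← C_mul, mul_div_cancel₀ _ h]
  have e2 : C (n + 2 : ℂ) * ((X - C (-1)) ^ n * (X - C ((n : ℂ) / (n + 2)))) =
      (X - C (-1)) ^ n * (C (n + 2 : ℂ) * (X - C ((n : ℂ) / (n + 2)))) := by ring
  rw [e2, e]
  unfold bad
  rw [derivative_mul, derivative_X_sub_C, derivative_X_sub_C_pow, one_mul, Nat.add_sub_cancel]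
  simp only [C_add, C_neg, C_1, Nat.cast_add, Nat.cast_one, map_natCast, map_ofNat]
  ring

lemma bad_der_roots (n : ℕ) : (derivative (bad n)).roots =
    n • {(-1 : ℂ)} + {((n : ℂ) / (n + 2))} := by
  have h : (n + 2 : ℂ) ≠ 0 := by exact_mod_cast (by omega : n + 2 ≠ 0)
  rw [bad_der, roots_C_mul _ h, roots_mul (mul_ne_zero (pow_ne_zero _ (X_sub_C_ne_zero _))
    (X_sub_C_ne_zero _)), roots_pow, roots_X_sub_C, roots_X_sub_C]

lemma bad_sum (n : ℕ) (s : ℝ) :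
    ((derivative (bad n)).roots.map (fun w : ℂ => ‖w - 1‖⁻¹ ^ s)).sum =
      n * (1 / 2 : ℝ) ^ s + (((n : ℝ) + 2) / 2) ^ s := by
  have h : (n + 2 : ℂ) ≠ 0 := by exact_mod_cast (by omega : n + 2 ≠ 0)
  rw [bad_der_roots, Multiset.map_add, Multiset.sum_add, Multiset.map_nsmul, Multiset.sum_nsmul,
    Multiset.map_singleton, Multiset.sum_singleton, Multiset.map_singleton, Multiset.sum_singleton]
  have e1 : ‖(-1 : ℂ) - 1‖ = 2 := by
    rw [show (-1 : ℂ) - 1 = -2 by ring, norm_neg]; simp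
  have e2 : ‖((n : ℂ) / (n + 2)) - 1‖ = 2 / (n + 2) := by
    have : ((n : ℂ) / (n + 2)) - 1 = -((2 / (n + 2) : ℝ) : ℂ) := by
      push_cast
      field_simp
      ring
    rw [this, norm_neg, Complex.norm_real, Real.norm_eq_abs, abs_of_pos (by positivity)]
  rw [e1, e2, nsmul_eq_mul, inv_div]
  norm_num

/-- the sum is eventually smaller than `n - 1` -/
lemma bad_small {s : ℝ} (hs0 : 0 < s) (hs : s < 1) :
    ∃ N : ℕ, ∀ n ≥ N, ((derivative (bad n)).roots.map (fun w : ℂ => ‖w - 1‖⁻¹ ^ s)).sum <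
      ((n + 1 : ℕ) : ℝ) := by
  have h2 : (1 / 2 : ℝ) ^ s < 1 := Real.rpow_lt_one (by norm_num) (by norm_num) hs0
  set δ := 1 - (1 / 2 : ℝ) ^ s with hδ
  have hδ0 : 0 < δ := by rw [hδ]; linarith
  -- ((n+2)/2)^s ≤ δ (n + 1)
  have ht : Filter.Tendsto (fun x : ℝ => x ^ (s - 1)) Filter.atTop (nhds 0) := by
    have := tendsto_rpow_neg_atTop (show 0 < 1 - s by linarith)
    rwa [show -(1 - s) = s - 1 by ring] at this
  have ht2 : Filter.Tendsto (fun n : ℕ => (((n : ℝ) + 2) / 2) ^ (s - 1)) Filter.atTop (nhds 0) := by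
    apply ht.comp
    exact (Filter.tendsto_atTop_add_const_right _ _ tendsto_natCast_atTop_atTop).atTop_div_const
      (by norm_num)
  obtain ⟨N, hN⟩ := Filter.eventually_atTop.1 (ht2.eventually_lt_const hδ0)
  refine ⟨N, fun n hn => ?_⟩
  rw [bad_sum]
  have h3 := hN n hn
  have hx : (0 : ℝ) < ((n : ℝ) + 2) / 2 := by positivity
  have h4 : (((n : ℝ) + 2) / 2) ^ s < δ * (((n : ℝ) + 2) / 2) := by
    rw [Real.rpow_sub_one hx.ne'] at h3
    exact (div_lt_iff₀ hx).1 h3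
  have h5 : δ * (((n : ℝ) + 2) / 2) ≤ δ * (n + 1) := by
    refine mul_le_mul_of_nonneg_left ?_ hδ0.le
    have : (0 : ℝ) ≤ n := Nat.cast_nonneg n
    linarith
  have h6 : (n : ℝ) * (1 / 2 : ℝ) ^ s = n - n * δ := by rw [hδ]; ring
  rw [h6]
  push_cast
  have h7 : δ ≤ 1 := by
    rw [hδ]
    have := Real.rpow_pos_of_pos (show (0 : ℝ) < 1 / 2 by norm_num) s
    linarith
  nlinarith

end Pool.Agent.H981.Sen
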