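import Pool.Agent.H981.Sen.Star

set_option autoImplicit false

/-!
# Large degrees, `0 < a < 1`
-/

open Polynomial MeasureTheory

namespace Pool.Agent.H981.Sen

open Pool.Agent.H565.Pm

section

variable {m : ℕ} {p a : ℝ} {v : Fin m → ℂ} (hp : 1 < p) (hp2 : p ≤ 2) (ha0 : 0 < a) (ha1 : a < 1)
  (hq : ∀ k, ‖1 - (a : ℂ) * v k‖ ≤ ‖v k‖) (hU : ∑ k, ‖v k‖ ^ p ≤ m)

include hp hp2 ha0 ha1 hq in
lemma RR_lower (hG : Real.log (1 + m * (1 - a) / 2) ≤ GG a v) :
    cc p / 4 * Real.log (1 + m / 4) ≤ RR p a v := by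
  have hc := cc_pos hp
  have hm0 : (0 : ℝ) ≤ m := Nat.cast_nonneg m
  have hL0 : 0 ≤ Real.log (1 + m / 4) := Real.log_nonneg (by linarith)
  rcases le_or_gt (1 / 2) a with h | h
  · have h1 := RR_ge_a hp hp2 ha0 ha1 hq
    have h2 : 1 / 4 ≤ a ^ 2 := by nlinarith
    have h3 := Real.log_le_sub_one_of_pos (show (0 : ℝ) < 1 + m / 4 by linarith)
    have h4 : cc p / 4 * Real.log (1 + m / 4) ≤ cc p / 4 * (m / 4) :=
      mul_le_mul_of_nonneg_left (by linarith) (by linarith)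
    have h5 : cc p / 4 * (m * (1 / 4)) ≤ cc p / 4 * (m * a ^ 2) :=
      mul_le_mul_of_nonneg_left (mul_le_mul_of_nonneg_left h2 hm0) (by linarith)
    linarith
  · have h1 := RR_ge_G hp hp2 ha0 ha1 hq
    have h2 : Real.log (1 + m / 4) ≤ Real.log (1 + m * (1 - a) / 2) := by
      apply Real.log_le_log (by linarith)
      nlinarith
    have h3 := mul_le_mul_of_nonneg_left (h2.trans hG) hc.le
    have h4 := mul_nonneg hc.le hL0
    linarith

lemma kap_ge (hp : 1 < p) (ha0 : 0 < a) (ha1 : a < 1) : cc p / 4 / (1 - a) ≤ kap p a := by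
  have hc := cc_pos hp
  have h1 : 0 < 1 - a := by linarith
  have h2 : 0 < 1 - a ^ 2 := by nlinarith
  unfold kap
  rw [div_le_div_iff₀ h1 h2]
  nlinarith [mul_pos hc h1]

lemma kap_log (hp : 1 < p) (ha0 : 0 < a) (ha1 : a < 1)
    (hG : Real.log (1 + m * (1 - a) / 2) ≤ GG a v) :
    cc p / 4 / (1 - a) * Real.log (1 + m * (1 - a) / 2) ≤ kap p a * GG a v := by
  have h1 : 0 < 1 - a := by linarith
  have hc := cc_pos hp
  have hlog : 0 ≤ Real.log (1 + m * (1 - a) / 2) := by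
    apply Real.log_nonneg
    have : 0 ≤ (m : ℝ) * (1 - a) := mul_nonneg (Nat.cast_nonneg m) h1.le
    linarith
  exact mul_le_mul (kap_ge hp ha0 ha1) hG hlog (kap_pos hp ha0 ha1).le

/-- the general lower bound for `κ Γ` -/
lemma kG_lower (hp : 1 < p) (ha0 : 0 < a) (ha1 : a < 1)
    (hG : Real.log (1 + m * (1 - a) / 2) ≤ GG a v) :
    cc p / 4 * Real.log (1 + m / 4) ≤ kap p a * GG a v := by
  have hc := cc_pos hp
  have h1 : 0 < 1 - a := by linarith
  have hm0 : (0 : ℝ) ≤ m := Nat.cast_nonneg m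
  refine le_trans ?_ (kap_log hp ha0 ha1 hG)
  have h2 : (1 - a) * Real.log (1 + m / 4) ≤ Real.log (1 + m * (1 - a) / 2) := by
    have h3 : (1 + (m / 2 : ℝ)) ^ (1 - a) ≤ 1 + (1 - a) * (m / 2) :=
      rpow_one_add_le_one_add_mul_self (by linarith) (by linarith) (by linarith)
    have h4 : Real.log ((1 + (m / 2 : ℝ)) ^ (1 - a)) ≤ Real.log (1 + (1 - a) * (m / 2)) :=
      Real.log_le_log (Real.rpow_pos_of_pos (by linarith) _) h3
    rw [Real.log_rpow (by linarith)] at h4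
    have h5 : Real.log (1 + m / 4) ≤ Real.log (1 + m / 2) :=
      Real.log_le_log (by linarith) (by linarith)
    have h6 := mul_le_mul_of_nonneg_left h5 h1.le
    have e : (1 + (1 - a) * ((m : ℝ) / 2)) = 1 + m * (1 - a) / 2 := by ring
    rw [e] at h4
    linarith
  have h7 : cc p / 4 * Real.log (1 + m / 4) =
      cc p / 4 / (1 - a) * ((1 - a) * Real.log (1 + m / 4)) := by
    field_simp
  rw [h7]
  exact mul_le_mul_of_nonneg_left h2 (by positivity)

lemma kG_small (hp : 1 < p) (ha0 : 0 < a) (ha1 : a < 1)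
    (hG : Real.log (1 + m * (1 - a) / 2) ≤ GG a v) (hs : m * (1 - a) ≤ 2) :
    cc p / 16 * m ≤ kap p a * GG a v := by
  have hc := cc_pos hp
  have h1 : 0 < 1 - a := by linarith
  have hm0 : (0 : ℝ) ≤ m := Nat.cast_nonneg m
  refine le_trans ?_ (kap_log hp ha0 ha1 hG)
  set x := (m : ℝ) * (1 - a) / 2 with hx
  have hx0 : 0 ≤ x := by rw [hx]; positivity
  have hx1 : x ≤ 1 := by rw [hx]; linarith
  have h2 : x / 2 ≤ Real.log (1 + x) := by
    have h3 := Real.one_sub_inv_le_log_of_pos (show 0 < 1 + x by linarith)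
    have h4 : x / 2 ≤ 1 - (1 + x)⁻¹ := by
      have : 1 - (1 + x)⁻¹ = x / (1 + x) := by field_simp; ring
      rw [this]
      exact div_le_div_of_nonneg_left hx0 (by linarith) (by linarith)
    linarith
  have h3 : cc p / 16 * m = cc p / 4 / (1 - a) * (x / 2) := by
    rw [hx]; field_simp; ring
  rw [h3]
  exact mul_le_mul_of_nonneg_left h2 (by positivity)

lemma kG_big (hp : 1 < p) (ha0 : 0 < a) (ha1 : a < 1)
    (hG : Real.log (1 + m * (1 - a) / 2) ≤ GG a v) (hs : 2 < m * (1 - a)) :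
    cc p / 8 ≤ (1 - a) * (kap p a * GG a v) := by
  have hc := cc_pos hp
  have h1 : 0 < 1 - a := by linarith
  have h2 := mul_le_mul_of_nonneg_left (kap_log hp ha0 ha1 hG) h1.le
  refine le_trans ?_ h2
  have h3 : (1 / 2 : ℝ) ≤ Real.log (1 + m * (1 - a) / 2) := by
    have h4 : Real.log 2 ≤ Real.log (1 + m * (1 - a) / 2) :=
      Real.log_le_log (by norm_num) (by linarith)
    have := Real.log_two_gt_d9
    linarith
  have h5 : (1 - a) * (cc p / 4 / (1 - a) * Real.log (1 + m * (1 - a) / 2)) =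
      cc p / 4 * Real.log (1 + m * (1 - a) / 2) := by field_simp
  rw [h5]
  nlinarith

include hp hp2 ha0 ha1 hq hU in
/-- very close to the circle -/
lemma regB (hm : 4 ≤ m) (hmc : 20736 < cc p ^ 2 * m) (hε : (1 - a) * m ^ 7 ≤ 1)
    (hX : m - 18 * (1 - a) * m ^ 3 ≤ ∑ k, (v k).re)
    (hS : 1 - a ≤ 4 * ‖∏ k, (1 - (a : ℂ) * v k)‖) : False := by
  have hc := cc_pos hp
  have hc2 := cc_le hp2
  have hm' : (4 : ℝ) ≤ m := by exact_mod_cast hm
  have hm0 : (0 : ℝ) < m := by linarith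
  set c := cc p with hcd
  set ε := 1 - a with hεd
  have hε0 : 0 < ε := by rw [hεd]; linarith
  have hε1 : ε ≤ 1 := by rw [hεd]; linarith
  set η := 18 * ε * m ^ 3 with hη
  have hη0 : 0 < η := by positivity
  -- η m⁴ ≤ 18
  have hηm : η * m ^ 4 ≤ 18 := by
    have : η * m ^ 4 = 18 * (ε * m ^ 7) := by rw [hη]; ring
    rw [this]; linarith
  have hm4 : (m : ℝ) ≤ m ^ 4 := by
    have : (1 : ℝ) ≤ m ^ 3 := one_le_pow₀ (by linarith)
    nlinarith
  have hηm1 : η * m ≤ 18 := (mul_le_mul_of_nonneg_left hm4 hη0.le).trans hηm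
  -- 4 η ≤ c
  have hηc : 4 * η ≤ c := by
    have h1 : η * (c ^ 2 * m) ≤ 18 * c ^ 2 := by nlinarith [mul_nonneg hη0.le (sq_nonneg c)]
    have h2 : η * 20736 ≤ η * (c ^ 2 * m) := mul_le_mul_of_nonneg_left hmc.le hη0.le
    nlinarith
  set τ := 4 * η / c with hτ
  have hτ0 : 0 < τ := by positivity
  have hτ1 : τ ≤ 1 := by rw [hτ, div_le_one hc]; exact hηc
  have hterm : ∀ k, chi p ‖v k‖ + (‖v k‖ - (v k).re) ≤ η := by
    intro k
    have h1 : ∀ j, 0 ≤ chi p ‖v j‖ + (‖v j‖ - (v j).re) := by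
      intro j
      have := chi_nonneg hp (norm_nonneg (v j))
      have := Complex.re_le_norm (v j)
      linarith
    have h2 : chi p ‖v k‖ + (‖v k‖ - (v k).re) ≤ ∑ j, (chi p ‖v j‖ + (‖v j‖ - (v j).re)) :=
      Finset.single_le_sum (f := fun j => chi p ‖v j‖ + (‖v j‖ - (v j).re))
        (fun j _ => h1 j) (Finset.mem_univ k)
    have h3 : ∑ j, (chi p ‖v j‖ + (‖v j‖ - (v j).re)) = ∑ j, dd p ‖v j‖ + m - ∑ j, (v j).re := by
      have : ∀ j, chi p ‖v j‖ + (‖v j‖ - (v j).re) = dd p ‖v j‖ + 1 - (v j).re := by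
        intro j; unfold chi; ring
      simp_rw [this]
      rw [Finset.sum_sub_distrib, Finset.sum_add_distrib]
      simp
    have h4 := sum_dd_le hp v hU
    linarith
  have hρ : ∀ k, ‖1 - (a : ℂ) * v k‖ ^ 2 ≤ τ := by
    intro k
    have h1 := hterm k
    have h2 := chi_nonneg hp (norm_nonneg (v k))
    have h3 := Complex.re_le_norm (v k)
    have hr := r_ge ha0 ha1 (hq k)
    have hr2 : ‖v k‖ ≤ 2 := by
      by_contra hcon
      push Not at hcon
      have h4 := chi_heavy hp hp2 hcon.le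
      have h5 : 1 ≤ ‖v k‖ ^ p := Real.one_le_rpow (by linarith) (by linarith)
      have h6 := mul_le_mul_of_nonneg_left h5 hc.le
      linarith
    have h4 := chi_light hp hp2 hr hr2
    have h5 : ‖v k - 1‖ ^ 2 = (‖v k‖ - 1) ^ 2 + 2 * (‖v k‖ - (v k).re) := by
      have := dist_sq (v k) 1 norm_one
      simpa using this
    have h6 : c * ‖v k - 1‖ ^ 2 ≤ η := by
      rw [h5]
      have : c * (2 * (‖v k‖ - (v k).re)) ≤ ‖v k‖ - (v k).re := by nlinarith
      nlinarith [mul_nonneg hc.le (sq_nonneg (‖v k‖ - 1))]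
    have h7 : ‖1 - (a : ℂ) * v k‖ ≤ ε + ‖v k - 1‖ := by
      have e : 1 - (a : ℂ) * v k = ((ε : ℝ) : ℂ) - (a : ℂ) * (v k - 1) := by
        rw [hεd]; push_cast; ring
      rw [e]
      refine (norm_sub_le _ _).trans ?_
      rw [norm_mul, Complex.norm_real, Complex.norm_real, Real.norm_eq_abs, Real.norm_eq_abs,
        abs_of_pos ha0, abs_of_pos hε0]
      nlinarith [norm_nonneg (v k - 1)]
    have h8 : ‖1 - (a : ℂ) * v k‖ ^ 2 ≤ 2 * ε ^ 2 + 2 * ‖v k - 1‖ ^ 2 := by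
      have := pow_le_pow_left₀ (norm_nonneg _) h7 2
      nlinarith [sq_nonneg (ε - ‖v k - 1‖)]
    have h9 : c * ε ^ 2 ≤ η := by
      have e1 : ε ^ 2 ≤ ε := by nlinarith
      have e2 : (1 : ℝ) ≤ m ^ 3 := one_le_pow₀ (by linarith)
      have e3 : ε ≤ ε * m ^ 3 := by nlinarith
      rw [hη]
      nlinarith
    rw [hτ, le_div_iff₀ hc]
    nlinarith
  have hF : ‖∏ k, (1 - (a : ℂ) * v k)‖ ≤ τ ^ 2 := by
    refine le_sq' ?_ (by positivity)
    rw [norm_prod, ← Finset.prod_pow]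
    have h1 : ∏ k, ‖1 - (a : ℂ) * v k‖ ^ 2 ≤ ∏ _k : Fin m, τ :=
      Finset.prod_le_prod (fun _ _ => sq_nonneg _) fun k _ => hρ k
    rw [Finset.prod_const, Finset.card_univ, Fintype.card_fin] at h1
    refine h1.trans ?_
    have h2 : τ ^ m ≤ τ ^ 4 := pow_le_pow_of_le_one hτ0.le hτ1 hm
    refine h2.trans (le_of_eq (by ring))
  have h1 : ε ≤ 4 * τ ^ 2 := hS.trans (by linarith)
  have h2 : 4 * τ ^ 2 * c ^ 2 = 20736 * (ε * (ε * m ^ 6)) := by
    rw [hτ, hη]; field_simp; ring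
  have h3 : ε * c ^ 2 ≤ 20736 * (ε * (ε * m ^ 6)) := by
    rw [← h2]; exact mul_le_mul_of_nonneg_right h1 (sq_nonneg c)
  have h4 : c ^ 2 ≤ 20736 * (ε * m ^ 6) := by
    by_contra hcon
    push Not at hcon
    have := mul_lt_mul_of_pos_left hcon hε0
    linarith
  have h5 : c ^ 2 * m ≤ 20736 * (ε * m ^ 7) := by
    have := mul_le_mul_of_nonneg_right h4 hm0.le
    refine this.trans (le_of_eq (by ring))
  linarith

end

/-- the condition on the degree -/
def Large (p : ℝ) (m : ℕ) : Prop :=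
  4 ≤ m ∧ 20736 < cc p ^ 2 * m ∧
  48000 / cc p ^ 3 * (4 * (cc p / 16 * (cc p / 4 * Real.log (1 + m / 4))) ^ (1 - p) +
    Real.exp (-(cc p / 4 * Real.log (1 + m / 4) / 4))) ≤ 1 / 2 ∧
  4 * Real.exp (-(cc p / 16 * m)) * m ^ 7 < 1 ∧
  64 / cc p < cc p / 4 * Real.log (1 + m / 4)

lemma eventually_large {p : ℝ} (hp : 1 < p) : ∃ N : ℕ, ∀ m ≥ N, Large p m := by
  have hc := cc_pos hp
  have hlog : Filter.Tendsto (fun m : ℕ => Real.log (1 + (m : ℝ) / 4)) Filter.atTop
      Filter.atTop := by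
    apply Real.tendsto_log_atTop.comp
    apply Filter.tendsto_atTop_add_const_left
    exact (tendsto_natCast_atTop_atTop).atTop_div_const (by norm_num)
  have h1 : ∀ᶠ m : ℕ in Filter.atTop, 4 ≤ m := Filter.eventually_ge_atTop 4
  have h2 : ∀ᶠ m : ℕ in Filter.atTop, 20736 < cc p ^ 2 * (m : ℝ) :=
    ((tendsto_natCast_atTop_atTop (R := ℝ)).const_mul_atTop (by positivity)).eventually_gt_atTop _
  have h5 : ∀ᶠ m : ℕ in Filter.atTop, 64 / cc p < cc p / 4 * Real.log (1 + (m : ℝ) / 4) :=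
    (hlog.const_mul_atTop (by positivity)).eventually_gt_atTop _
  have h3 : ∀ᶠ m : ℕ in Filter.atTop,
      48000 / cc p ^ 3 * (4 * (cc p / 16 * (cc p / 4 * Real.log (1 + (m : ℝ) / 4))) ^ (1 - p) +
        Real.exp (-(cc p / 4 * Real.log (1 + (m : ℝ) / 4) / 4))) ≤ 1 / 2 := by
    have t1 : Filter.Tendsto (fun m : ℕ =>
        (cc p / 16 * (cc p / 4 * Real.log (1 + (m : ℝ) / 4))) ^ (1 - p)) Filter.atTop (nhds 0) := by
      have := tendsto_rpow_neg_atTop (show 0 < p - 1 by linarith)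
      rw [show -(p - 1) = 1 - p by ring] at this
      exact this.comp ((hlog.const_mul_atTop (by positivity)).const_mul_atTop (by positivity))
    have t2 : Filter.Tendsto (fun m : ℕ =>
        Real.exp (-(cc p / 4 * Real.log (1 + (m : ℝ) / 4) / 4))) Filter.atTop (nhds 0) := by
      apply Real.tendsto_exp_neg_atTop_nhds_zero.comp
      exact (hlog.const_mul_atTop (by positivity)).atTop_div_const (by norm_num)
    have t3 := ((t1.const_mul 4).add t2).const_mul (48000 / cc p ^ 3)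
    simp only [mul_zero, add_zero] at t3
    exact (t3.eventually_lt_const (show (0 : ℝ) < 1 / 2 by norm_num)).mono fun m h => h.le
  have h4 : ∀ᶠ m : ℕ in Filter.atTop,
      4 * Real.exp (-(cc p / 16 * (m : ℝ))) * (m : ℝ) ^ 7 < 1 := by
    have t1 := tendsto_rpow_mul_exp_neg_mul_atTop_nhds_zero 7 (cc p / 16) (by positivity)
    have t2 := (t1.comp (tendsto_natCast_atTop_atTop (R := ℝ))).const_mul 4
    simp only [mul_zero] at t2
    refine (t2.eventually_lt_const (show (0 : ℝ) < 1 by norm_num)).mono fun m h => ?_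
    simp only [Function.comp_def] at h
    have e : (m : ℝ) ^ (7 : ℝ) = (m : ℝ) ^ 7 := by
      rw [← Real.rpow_natCast]; norm_num
    rw [e] at h
    have e2 : -(cc p / 16) * (m : ℝ) = -(cc p / 16 * m) := by ring
    rw [e2] at h
    linarith
  obtain ⟨N, hN⟩ := Filter.eventually_atTop.1 (h1.and (h2.and (h3.and (h4.and h5))))
  exact ⟨N, fun m hm => hN m hm⟩

/-- **the interior case**, in terms of the reciprocals -/
theorem interior {m : ℕ} {p a : ℝ} {v : Fin m → ℂ} (hp : 1 < p) (hp2 : p ≤ 2)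
    (ha0 : 0 < a) (ha1 : a < 1) (hL : Large p m)
    (hq : ∀ k, ‖1 - (a : ℂ) * v k‖ ≤ ‖v k‖)
    (hC : ‖(m + 1 : ℂ) * ∫ t in (0:ℝ)..1, ∏ k, (1 - (a : ℂ) * t * v k)‖ ≤ ∏ k, ‖v k‖)
    (hst : 1 ≤ ∫ t in (0:ℝ)..1, ∏ k, ‖(a : ℂ) + ((t * (1 - a ^ 2) : ℝ) : ℂ) * v k‖) :
    (m : ℝ) < ∑ k, ‖v k‖ ^ p := by
  by_contra hcon
  have hU : ∑ k, ‖v k‖ ^ p ≤ m := not_lt.1 hcon
  obtain ⟨hm4, hmc, hK, hA1, hA2⟩ := hL
  have hc := cc_pos hp
  have hm : 0 < m := by omega
  have hm' : (4 : ℝ) ≤ m := by exact_mod_cast hm4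
  have hε0 : 0 < 1 - a := by linarith
  have hG := GG_ge ha0 ha1 hq hst
  have hR := RR_lower hp hp2 ha0 ha1 hq hG
  have hk := kG_lower (v := v) hp ha0 ha1 hG
  have hlog : 0 < Real.log (1 + m / 4) := Real.log_pos (by linarith)
  have hR0 : 0 < RR p a v := lt_of_lt_of_le (by positivity) hR
  have hmain : 1 - a ≤ 4 * ‖∏ k, (1 - (a : ℂ) * v k)‖ := by
    apply main hp hp2 ha0 ha1 hq hU hm hR0 hC
    refine le_trans ?_ hK
    refine mul_le_mul_of_nonneg_left (add_le_add ?_ ?_) (by positivity)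
    · refine mul_le_mul_of_nonneg_left ?_ (by norm_num)
      exact Real.rpow_le_rpow_of_nonpos (by positivity)
        (mul_le_mul_of_nonneg_left hR (by positivity)) (by linarith)
    · apply Real.exp_le_exp.2
      linarith
  rcases le_or_gt ((1 - a) * m ^ 7) 1 with hε | hε
  · exact regB hp hp2 ha0 ha1 hq hU hm4 hmc hε
      (re_ge hp ha0 ha1 hst (by omega) hU hε) hmain
  · have hF := F_le hp hp2 ha0 ha1 hq hU
    have h1 : 1 - a ≤ 4 * Real.exp (-(kap p a * GG a v)) := hmain.trans (by linarith)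
    rcases le_or_gt (m * (1 - a)) 2 with hs | hs
    · have h2 := kG_small (v := v) hp ha0 ha1 hG hs
      have h3 : Real.exp (-(kap p a * GG a v)) ≤ Real.exp (-(cc p / 16 * m)) :=
        Real.exp_le_exp.2 (by linarith)
      have h4 : (1 - a) * m ^ 7 ≤ 4 * Real.exp (-(cc p / 16 * m)) * m ^ 7 :=
        mul_le_mul_of_nonneg_right (by linarith) (by positivity)
      linarith
    · have h2 := kG_big (v := v) hp ha0 ha1 hG hs
      set Y := kap p a * GG a v with hY
      have hYbig : 64 / cc p < Y := by linarith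
      have hY0 : 0 < Y := lt_trans (by positivity) hYbig
      have h3 : Y ^ 2 / 2 ≤ Real.exp Y := by
        have := Real.quadratic_le_exp_of_nonneg hY0.le
        linarith
      -- (1 - a) e^Y ≤ 4
      have h4 : (1 - a) * Real.exp Y ≤ 4 := by
        have := mul_le_mul_of_nonneg_right h1 (Real.exp_pos Y).le
        rwa [mul_assoc, ← Real.exp_add, neg_add_cancel, Real.exp_zero, mul_one] at this
      have h5 : (1 - a) * (Y ^ 2 / 2) ≤ 4 := (mul_le_mul_of_nonneg_left h3 hε0.le).trans h4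
      have h6 : cc p / 8 * Y ≤ 8 := by
        have := mul_le_mul_of_nonneg_right h2 hY0.le
        nlinarith
      rw [div_lt_iff₀ hc] at hYbig
      linarith

end Pool.Agent.H981.Sen
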