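import Mathlib

set_option autoImplicit false

/-!
# The convexity gap of `r ^ p`, `1 < p ≤ 2`
-/

namespace Pool.Agent.H981.Sen

/-- `(r ^ p - 1) / p` -/
noncomputable def dd (p r : ℝ) : ℝ := (r ^ p - 1) / p

/-- the gap in Bernoulli's inequality -/
noncomputable def chi (p r : ℝ) : ℝ := dd p r - (r - 1)

/-- the constant `(p - 1) / 32` -/
noncomputable def cc (p : ℝ) : ℝ := (p - 1) / 32

lemma cc_pos {p : ℝ} (hp : 1 < p) : 0 < cc p := by unfold cc; linarith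

lemma cc_le {p : ℝ} (hp : p ≤ 2) : cc p ≤ 1 / 32 := by unfold cc; linarith

/-- second order Bernoulli -/
lemma bern2 {p r : ℝ} (hp : 1 < p) (hp2 : p ≤ 2) (hr : 1 / 2 ≤ r) :
    1 + p * (r - 1) + p * (p - 1) * (Real.sqrt r - 1) ^ 2 ≤ r ^ p := by
  have hr0 : 0 ≤ r := by linarith
  set y := Real.sqrt r with hy
  have hyy : y ^ 2 = r := Real.sq_sqrt hr0
  have hy0 : 0 ≤ y := Real.sqrt_nonneg _
  have hy1 : 1 / 2 ≤ y := by
    rw [hy]
    apply Real.le_sqrt_of_sq_le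
    nlinarith
  have h1 := one_add_mul_self_le_rpow_one_add (s := y - 1) (by linarith) (p := p) hp.le
  rw [show 1 + (y - 1) = y by ring] at h1
  have h2 : 0 ≤ 1 + p * (y - 1) := by nlinarith
  have h3 : (1 + p * (y - 1)) ^ 2 ≤ (y ^ p) ^ 2 := pow_le_pow_left₀ h2 h1 2
  have h4 : (y ^ p) ^ 2 = r ^ p := by
    rw [← hyy, ← Real.rpow_natCast (y ^ p) 2, ← Real.rpow_natCast y 2, ← Real.rpow_mul hy0,
      ← Real.rpow_mul hy0]
    congr 1
    ring
  rw [h4] at h3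
  have h5 : (1 + p * (y - 1)) ^ 2 = 1 + p * (y ^ 2 - 1) + p * (p - 1) * (y - 1) ^ 2 := by ring
  rw [h5, hyy] at h3
  exact h3

lemma chi_ge {p r : ℝ} (hp : 1 < p) (hp2 : p ≤ 2) (hr : 1 / 2 ≤ r) :
    (p - 1) * (Real.sqrt r - 1) ^ 2 ≤ chi p r := by
  have h := bern2 hp hp2 hr
  unfold chi dd
  have hp0 : 0 < p := by linarith
  have h1 : r - 1 + (p - 1) * (Real.sqrt r - 1) ^ 2 ≤ (r ^ p - 1) / p := by
    rw [le_div_iff₀ hp0]
    nlinarith
  linarith

lemma chi_nonneg {p r : ℝ} (hp : 1 < p) (hr : 0 ≤ r) : 0 ≤ chi p r := by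
  have h := one_add_mul_self_le_rpow_one_add (s := r - 1) (by linarith) (p := p) hp.le
  rw [show 1 + (r - 1) = r by ring] at h
  unfold chi dd
  have hp0 : 0 < p := by linarith
  have h1 : r - 1 ≤ (r ^ p - 1) / p := by
    rw [le_div_iff₀ hp0]
    nlinarith
  linarith

lemma chi_light {p r : ℝ} (hp : 1 < p) (hp2 : p ≤ 2) (hr : 1 / 2 ≤ r) (hr2 : r ≤ 2) :
    5 * cc p * (r - 1) ^ 2 ≤ chi p r := by
  refine le_trans ?_ (chi_ge hp hp2 hr)
  have hr0 : 0 ≤ r := by linarith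
  set y := Real.sqrt r with hy
  have hyy : y ^ 2 = r := Real.sq_sqrt hr0
  have hy0 : 0 ≤ y := Real.sqrt_nonneg _
  have hy2 : y ≤ 3 / 2 := by
    rw [hy]
    refine Real.sqrt_le_iff.2 ⟨by norm_num, by linarith⟩
  have e : (r - 1) ^ 2 = (y - 1) ^ 2 * (y + 1) ^ 2 := by rw [← hyy]; ring
  unfold cc
  rw [e]
  have h1 : (y + 1) ^ 2 ≤ 25 / 4 := by nlinarith
  have h2 : (y - 1) ^ 2 * (y + 1) ^ 2 ≤ (y - 1) ^ 2 * (25 / 4) :=
    mul_le_mul_of_nonneg_left h1 (sq_nonneg _)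
  have h3 : 0 ≤ (p - 1) * (y - 1) ^ 2 := mul_nonneg (by linarith) (sq_nonneg _)
  nlinarith [mul_le_mul_of_nonneg_left h2 (show 0 ≤ 5 * ((p - 1) / 32) by linarith)]

lemma chi_heavy {p r : ℝ} (hp : 1 < p) (hp2 : p ≤ 2) (hr : 2 ≤ r) :
    cc p * r ^ p ≤ chi p r := by
  have h := bern2 hp hp2 (show 1 / 2 ≤ r by linarith)
  have hr0 : 0 ≤ r := by linarith
  set y := Real.sqrt r with hy
  have hyy : y ^ 2 = r := Real.sq_sqrt hr0
  have hy1 : 7 / 5 ≤ y := by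
    rw [hy]
    apply Real.le_sqrt_of_sq_le
    linarith
  -- (y-1)^2 ≥ r * 4/49
  have h1 : r * (4 / 49) ≤ (y - 1) ^ 2 := by rw [← hyy]; nlinarith
  set A := 1 + p * (r - 1) with hA
  have hAr : A ≤ p * r := by rw [hA]; nlinarith
  have hA0 : 0 < A := by rw [hA]; nlinarith
  set T := r ^ p with hT
  -- T ≥ A + (p-1) * (4/49) * p r ≥ A (1 + (p-1) 4/49)
  have h2 : A * (1 + (p - 1) * (4 / 49)) ≤ T := by
    have h3 : p * (p - 1) * (r * (4 / 49)) ≤ p * (p - 1) * (y - 1) ^ 2 :=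
      mul_le_mul_of_nonneg_left h1 (mul_nonneg (by linarith) (by linarith))
    have h4 : A * ((p - 1) * (4 / 49)) ≤ (p * r) * ((p - 1) * (4 / 49)) :=
      mul_le_mul_of_nonneg_right hAr (mul_nonneg (by linarith) (by norm_num))
    nlinarith
  have hT0 : 0 < T := lt_of_lt_of_le (mul_pos hA0 (by nlinarith)) h2
  unfold chi dd cc
  have hp0 : 0 < p := by linarith
  have e : (T - 1) / p - (r - 1) = (T - A) / p := by
    rw [hA]; field_simp; ring
  rw [e, le_div_iff₀ hp0]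
  -- (p-1)/32 * T * p ≤ T - A
  set x := p - 1 with hx
  have hx0 : 0 < x := by linarith
  have hx1 : x ≤ 1 := by linarith
  have hA2 : A ≤ T * (1 - x / 16) := by
    have h5 : T * (1 - x / 16) * (1 + x * (4 / 49)) ≥ T := by
      have : 1 ≤ (1 - x / 16) * (1 + x * (4 / 49)) := by nlinarith
      nlinarith
    have h6 : 0 < 1 + x * (4 / 49) := by nlinarith
    by_contra hc
    push Not at hc
    have := mul_lt_mul_of_pos_right hc h6
    linarith
  have hpx : p ≤ 2 := hp2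
  nlinarith [mul_pos hx0 hT0]

lemma dd_ge {p r : ℝ} (hp : 1 < p) (hr : 0 ≤ r) : -1 ≤ dd p r := by
  unfold dd
  rw [le_div_iff₀ (by linarith)]
  have := Real.rpow_nonneg hr p
  linarith

lemma rpow_eq_dd {p r : ℝ} (hp : 1 < p) : r ^ p = p * dd p r + 1 := by
  unfold dd
  have : p ≠ 0 := by linarith
  field_simp
  ring

lemma r_le {p r : ℝ} (hp : 1 < p) (hr : 0 ≤ r) : r ≤ r ^ p + 1 := by
  rcases le_or_gt r 1 with h | h
  · have := Real.rpow_nonneg hr p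
    linarith
  · have := Real.self_le_rpow_of_one_le h.le hp.le
    linarith

end Pool.Agent.H981.Sen
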