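import Pool.Agent.H981.Sen.Asym
import Pool.Graph.R_seed8.Results.MP_f0bc87_an.AllNegativeExponents

set_option autoImplicit false

/-!
# From families to polynomials
-/

open Polynomial MeasureTheory

namespace Pool.Agent.H981.Sen

open Pool.Agent.H565.Pm

/-- Gauss–Lucas in the closed unit disc -/
lemma gauss_lucas {p : ℂ[X]} (hd : 0 < p.degree) (hp : ∀ z ∈ p.roots, ‖z‖ ≤ 1) {w : ℂ}
    (hw : w ∈ (derivative p).roots) : ‖w‖ ≤ 1 := by
  have hd0 : derivative p ≠ 0 := by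
    intro h
    rw [h, roots_zero] at hw
    simp at hw
  have hp0 : p ≠ 0 := by
    rintro rfl
    simp at hd
  have h1 : w ∈ (derivative p).rootSet ℂ := by
    rw [mem_rootSet]
    refine ⟨hd0, ?_⟩
    have := (mem_roots hd0).1 hw
    simpa [IsRoot] using this
  have h2 := rootSet_derivative_subset_convexHull_rootSet hd h1
  have h3 : convexHull ℝ (p.rootSet ℂ) ⊆ Metric.closedBall (0 : ℂ) 1 := by
    apply convexHull_min _ (convex_closedBall 0 1)
    intro z hz
    rw [mem_rootSet] at hz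
    rw [mem_closedBall_zero_iff]
    apply hp
    rw [mem_roots hp0]
    simpa [IsRoot] using hz.2
  have := h3 h2
  rwa [mem_closedBall_zero_iff] at this

/-- the interior case for families, `0 < a < 1` -/
theorem fin_pos {m : ℕ} {p a : ℝ} (hp : 1 < p) (hp2 : p ≤ 2) (hL : Large p m)
    (ha0 : 0 < a) (ha1 : a < 1) (z w : Fin m → ℂ) (hz : ∀ j, ‖z j‖ ≤ 1)
    (hr : (derivative (P a z)).roots = Multiset.map w Finset.univ.val)
    (hw : ∀ x : ℂ, (derivative (P a z)).eval x = (m + 1 : ℂ) * ∏ k, (x - w k))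
    (hne : ∀ k, w k ≠ a) :
    (m : ℝ) < ∑ k, ‖w k - (a : ℂ)‖⁻¹ ^ p := by
  have hwk : ∀ k, ‖w k‖ ≤ 1 := by
    intro k
    apply gauss_lucas (p := P a z)
    · rw [degree_eq_natDegree (P_monic a z).ne_zero, P_natDegree]
      exact_mod_cast Nat.succ_pos m
    · intro x hx
      have h0 := (mem_roots (P_monic a z).ne_zero).1 hx
      unfold P at h0
      rw [IsRoot, eval_mul, mul_eq_zero, eval_prod] at h0
      rcases h0 with h0 | h0
      · rw [eval_sub, eval_X, eval_C, sub_eq_zero] at h0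
        rw [h0, Complex.norm_real, Real.norm_eq_abs, abs_of_pos ha0]
        exact ha1.le
      · obtain ⟨j, -, hj⟩ := Finset.prod_eq_zero_iff.1 h0
        rw [eval_sub, eval_X, eval_C, sub_eq_zero] at hj
        rw [hj]; exact hz j
    · rw [hr, Multiset.mem_map]
      exact ⟨k, Finset.mem_univ_val k, rfl⟩
  set v : Fin m → ℂ := fun k => ((a : ℂ) - w k)⁻¹ with hv
  have hq : ∀ k, ‖1 - (a : ℂ) * v k‖ ≤ ‖v k‖ := by
    intro k
    have h0 : (a : ℂ) - w k ≠ 0 := sub_ne_zero.2 (hne k).symm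
    have e : 1 - (a : ℂ) * v k = -(w k * v k) := by
      rw [hv]; simp only; field_simp; ring
    rw [e, norm_neg, norm_mul]
    have := mul_le_mul_of_nonneg_right (hwk k) (norm_nonneg (v k))
    linarith
  have hC := Pool.Agent.W470.Sen.centre ha0 z w hz hw hne v (fun k => rfl)
  have hst := star_raw ha0.le ha1 z w hz hw hne v (fun k => rfl)
  have h := interior hp hp2 ha0 ha1 hL hq hC hst
  refine h.trans_le (le_of_eq (Finset.sum_congr rfl fun k _ => ?_))
  rw [hv]
  simp only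
  rw [norm_inv, norm_sub_rev]

/-- the interior case for families, `0 ≤ a < 1` -/
theorem fin_nonneg {m : ℕ} {p a : ℝ} (hp : 1 < p) (hp2 : p ≤ 2) (hL : Large p m)
    (ha0 : 0 ≤ a) (ha1 : a < 1) (z w : Fin m → ℂ) (hz : ∀ j, ‖z j‖ ≤ 1)
    (hr : (derivative (P a z)).roots = Multiset.map w Finset.univ.val)
    (hw : ∀ x : ℂ, (derivative (P a z)).eval x = (m + 1 : ℂ) * ∏ k, (x - w k))
    (hne : ∀ k, w k ≠ a) :
    (m : ℝ) < ∑ k, ‖w k - (a : ℂ)‖⁻¹ ^ p := by
  rcases ha0.eq_or_lt with h0 | h0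
  · have hm : 0 < m := by have := hL.1; omega
    have hm' : (0 : ℝ) < m := by exact_mod_cast hm
    have h1 := lt_one_case hm ha0 ha1 z w hz hw hne (by rw [← h0]; simp; positivity)
    have h2 : ∑ k, (1 + p * (‖w k - (a : ℂ)‖⁻¹ - 1)) ≤ ∑ k, ‖w k - (a : ℂ)‖⁻¹ ^ p := by
      refine Finset.sum_le_sum fun k _ => ?_
      have h3 : (0 : ℝ) ≤ ‖w k - (a : ℂ)‖⁻¹ := by positivity
      have := one_add_mul_self_le_rpow_one_add (s := ‖w k - (a : ℂ)‖⁻¹ - 1) (by linarith)
        (p := p) hp.le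
      rwa [show 1 + (‖w k - (a : ℂ)‖⁻¹ - 1) = ‖w k - (a : ℂ)‖⁻¹ by ring] at this
    rw [Finset.sum_add_distrib, ← Finset.mul_sum, Finset.sum_sub_distrib] at h2
    simp only [Finset.sum_const, Finset.card_univ, Fintype.card_fin, nsmul_eq_mul, mul_one] at h2
    nlinarith
  · exact fin_pos hp hp2 hL h0 ha1 z w hz hr hw hne

/-- the interior case for polynomials -/
theorem poly_interior {s : ℝ} (hs : 1 < s) (hs2 : s ≤ 2) {p : ℂ[X]}
    (hL : Large s (p.natDegree - 1)) (hp : ∀ z ∈ p.roots, ‖z‖ ≤ 1) {a : ℂ}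
    (ha : a ∈ p.roots) (hd : a ∉ (derivative p).roots) (ha1 : ‖a‖ < 1) :
    ((p.natDegree - 1 : ℕ) : ℝ) <
      ((derivative p).roots.map (fun w : ℂ => ‖w - a‖⁻¹ ^ s)).sum := by
  have hp0 : p ≠ 0 := by
    rintro rfl
    simp at ha
  obtain ⟨m, hm⟩ : ∃ m, p.natDegree = m + 1 := ⟨p.natDegree - 1, by have := hL.1; omega⟩
  have hcard : p.roots.card = m + 1 := by
    rw [← hm]
    exact (IsAlgClosed.splits p).natDegree_eq_card_roots.symm
  obtain ⟨l, hl⟩ := Quot.exists_rep p.roots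
  have hl' : (l : Multiset ℂ) = p.roots := hl
  have hlen : l.length = m + 1 := by
    rw [← hcard, ← hl']; rfl
  let lam : Fin (m + 1) → ℂ := fun i => l.get (i.cast hlen.symm)
  have hlam : Finset.univ.val.map lam = p.roots := by
    rw [← hl']
    have h1 : Finset.univ.val.map lam = ((List.ofFn lam : List ℂ) : Multiset ℂ) := by
      rw [List.ofFn_eq_map]
      rfl
    rw [h1]
    congr 1
    apply List.ext_get
    · simp [hlen]
    · intro n h1 h2
      simp only [List.get_eq_getElem, List.getElem_ofFn, lam]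
      rfl
  have hprod : p = C p.leadingCoeff * ∏ j, (X - C (lam j)) := by
    conv_lhs => rw [(IsAlgClosed.splits p).eq_prod_roots]
    rw [← hlam, Multiset.map_map]
    rfl
  have hlc : p.leadingCoeff ≠ 0 := leadingCoeff_ne_zero.2 hp0
  have hder : (derivative p).roots = (derivative (∏ j, (X - C (lam j)))).roots := by
    conv_lhs => rw [hprod]
    rw [derivative_C_mul, roots_C_mul _ hlc]
  obtain ⟨i, hi⟩ : ∃ i, lam i = a := by
    rw [← hlam, Multiset.mem_map] at ha
    obtain ⟨i, -, hi⟩ := ha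
    exact ⟨i, hi⟩
  have hbound : ∀ i, ‖lam i‖ ≤ 1 := by
    intro i
    apply hp
    rw [← hlam, Multiset.mem_map]
    exact ⟨i, Finset.mem_univ_val i, rfl⟩
  obtain ⟨c, z, w, hc, hca, hz, hr, hroots⟩ := Pool.Agent.W470.Sen.rotate_data lam hbound i
  have hc0 : c ≠ 0 := by
    intro h; rw [h, norm_zero] at hc; norm_num at hc
  rw [hi] at hca
  rw [hi] at hr
  have hwe : ∀ x : ℂ, (derivative (P ‖a‖ z)).eval x = (m + 1 : ℂ) * ∏ k, (x - w k) := by
    intro x
    have h : ((Multiset.map w Finset.univ.val).map fun w => X - C w).prod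
        = ∏ k, (X - C (w k)) := by
      rw [Multiset.map_map]; rfl
    rw [dP_eq, hr, h, eval_mul, eval_C, eval_prod]
    simp
  have hmap : (derivative p).roots = Multiset.map (fun k => c * w k) Finset.univ.val := by
    rw [hder, hroots]
  have hdist : ∀ k, ‖c * w k - a‖ = ‖w k - ((‖a‖ : ℝ) : ℂ)‖ := by
    intro k
    conv_lhs => rw [hca]
    rw [← mul_sub, norm_mul, hc, one_mul]
  have hne : ∀ k, w k ≠ ((‖a‖ : ℝ) : ℂ) := by
    intro k hk
    apply hd
    rw [hmap, Multiset.mem_map]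
    refine ⟨k, Finset.mem_univ_val k, ?_⟩
    rw [hk]; exact hca.symm
  rw [hm, Nat.add_sub_cancel] at hL ⊢
  have h := fin_nonneg hs hs2 hL (norm_nonneg a) ha1 z w hz hr hwe hne
  rw [hmap, Multiset.map_map]
  refine h.trans_le (le_of_eq ?_)
  change _ = ∑ k, ‖c * w k - a‖⁻¹ ^ s
  exact Finset.sum_congr rfl fun k _ => by rw [hdist]

/-- Bernoulli in sums -/
theorem sum_bern {s₀ s : ℝ} (h0 : 0 < s₀) (hs : s₀ ≤ s) (t : Multiset ℂ) (a : ℂ) :
    (t.card : ℝ) + s / s₀ * ((t.map (fun w : ℂ => ‖w - a‖⁻¹ ^ s₀)).sum - t.card) ≤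
      (t.map (fun w : ℂ => ‖w - a‖⁻¹ ^ s)).sum := by
  induction t using Multiset.induction with
  | empty => simp
  | cons z t ih =>
    rw [Multiset.map_cons, Multiset.sum_cons, Multiset.map_cons, Multiset.sum_cons,
      Multiset.card_cons]
    have hy : 0 ≤ ‖z - a‖⁻¹ := by positivity
    have hys : 0 ≤ ‖z - a‖⁻¹ ^ s₀ := Real.rpow_nonneg hy _
    have h1 := one_add_mul_self_le_rpow_one_add (s := ‖z - a‖⁻¹ ^ s₀ - 1) (by linarith)
      (p := s / s₀) (by rw [le_div_iff₀ h0]; linarith)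
    rw [show 1 + (‖z - a‖⁻¹ ^ s₀ - 1) = ‖z - a‖⁻¹ ^ s₀ by ring, ← Real.rpow_mul hy,
      mul_div_cancel₀ _ h0.ne'] at h1
    push_cast
    nlinarith

/-- reverse Bernoulli in sums -/
theorem sum_bern_rev {s₀ s : ℝ} (h0 : 0 < s) (hs : s ≤ s₀) (t : Multiset ℂ) (a : ℂ) :
    (t.map (fun w : ℂ => ‖w - a‖⁻¹ ^ s)).sum ≤
    (t.card : ℝ) + s / s₀ * ((t.map (fun w : ℂ => ‖w - a‖⁻¹ ^ s₀)).sum - t.card) := by
  have hs0 : 0 < s₀ := lt_of_lt_of_le h0 hs
  induction t using Multiset.induction with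
  | empty => simp
  | cons z t ih =>
    rw [Multiset.map_cons, Multiset.sum_cons, Multiset.map_cons, Multiset.sum_cons,
      Multiset.card_cons]
    have hy : 0 ≤ ‖z - a‖⁻¹ := by positivity
    have hys : 0 ≤ ‖z - a‖⁻¹ ^ s₀ := Real.rpow_nonneg hy _
    have h1 := rpow_one_add_le_one_add_mul_self (s := ‖z - a‖⁻¹ ^ s₀ - 1) (by linarith)
      (p := s / s₀) (by positivity) (by rw [div_le_one hs0]; exact hs)
    rw [show 1 + (‖z - a‖⁻¹ ^ s₀ - 1) = ‖z - a‖⁻¹ ^ s₀ by ring, ← Real.rpow_mul hy,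
      mul_div_cancel₀ _ hs0.ne'] at h1
    push_cast
    nlinarith

theorem re_le_sum (t : Multiset ℂ) {a : ℂ} (ha : ‖a‖ = 1) :
    ((t.map (fun w : ℂ => a * (1 / (a - w)))).sum).re ≤
      (t.map (fun w : ℂ => ‖w - a‖⁻¹ ^ (1 : ℝ))).sum := by
  induction t using Multiset.induction with
  | empty => simp
  | cons z t ih =>
    rw [Multiset.map_cons, Multiset.sum_cons, Multiset.map_cons, Multiset.sum_cons,
      Complex.add_re]
    have h1 : (a * (1 / (a - z))).re ≤ ‖z - a‖⁻¹ ^ (1 : ℝ) := by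
      refine (Complex.re_le_norm _).trans (le_of_eq ?_)
      rw [norm_mul, ha, one_mul, norm_div, norm_one, one_div, Real.rpow_one, norm_sub_rev]
    linarith

/-- the equality case of Bernoulli in sums -/
theorem all_one {s : ℝ} (hs : 1 < s) (t : Multiset ℂ) (a : ℂ)
    (h1 : (t.card : ℝ) ≤ (t.map (fun w : ℂ => ‖w - a‖⁻¹ ^ (1 : ℝ))).sum)
    (h2 : (t.map (fun w : ℂ => ‖w - a‖⁻¹ ^ s)).sum ≤ t.card) :
    ∀ w ∈ t, ‖w - a‖⁻¹ = 1 := by
  intro w hw
  set f : ℂ → ℝ := fun w => ‖w - a‖⁻¹ ^ s - 1 - s * (‖w - a‖⁻¹ - 1) with hf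
  have hf0 : ∀ w, 0 ≤ f w := by
    intro w
    have hy : 0 ≤ ‖w - a‖⁻¹ := by positivity
    have := one_add_mul_self_le_rpow_one_add (s := ‖w - a‖⁻¹ - 1) (by linarith) (p := s) hs.le
    rw [show 1 + (‖w - a‖⁻¹ - 1) = ‖w - a‖⁻¹ by ring] at this
    rw [hf]; simp only; linarith
  have hsum : (t.map f).sum = (t.map (fun w : ℂ => ‖w - a‖⁻¹ ^ s)).sum - t.card -
      s * ((t.map (fun w : ℂ => ‖w - a‖⁻¹ ^ (1 : ℝ))).sum - t.card) := by
    clear h1 h2 hw
    induction t using Multiset.induction with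
    | empty => simp
    | cons z t ih =>
      rw [Multiset.map_cons, Multiset.sum_cons, ih, Multiset.map_cons, Multiset.sum_cons,
        Multiset.map_cons, Multiset.sum_cons, Multiset.card_cons, hf]
      simp only [Real.rpow_one]
      push_cast
      ring
  have h3 : f w ≤ (t.map f).sum := by
    apply Multiset.single_le_sum
    · intro x hx
      rw [Multiset.mem_map] at hx
      obtain ⟨w, -, rfl⟩ := hx
      exact hf0 w
    · exact Multiset.mem_map_of_mem _ hw
  have h4 : f w ≤ 0 := by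
    rw [hsum] at h3
    nlinarith
  by_contra hne
  have hy : 0 ≤ ‖w - a‖⁻¹ := by positivity
  have := one_add_mul_self_lt_rpow_one_add (s := ‖w - a‖⁻¹ - 1) (by linarith)
    (sub_ne_zero.2 hne) (p := s) hs
  rw [show 1 + (‖w - a‖⁻¹ - 1) = ‖w - a‖⁻¹ by ring] at this
  rw [hf] at h4
  simp only at h4
  linarith

open Pool.Agent.Results.MP_f0bc87_an.AllNegativeExponents in
/-- one exponent in `(1, 2]`, all polynomials of large degree, with the equality case -/
theorem one_exponent {s : ℝ} (hs : 1 < s) (hs2 : s ≤ 2) {p : ℂ[X]}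
    (hL : Large s (p.natDegree - 1)) (hp : ∀ z ∈ p.roots, ‖z‖ ≤ 1) {a : ℂ}
    (ha : a ∈ p.roots) (hd : a ∉ (derivative p).roots) :
    ((p.natDegree - 1 : ℕ) : ℝ) ≤
      ((derivative p).roots.map (fun w : ℂ => ‖w - a‖⁻¹ ^ s)).sum ∧
    (((derivative p).roots.map (fun w : ℂ => ‖w - a‖⁻¹ ^ s)).sum ≤
      ((p.natDegree - 1 : ℕ) : ℝ) →
      ‖a‖ = 1 ∧ p = C p.leadingCoeff * (X ^ p.natDegree - C (a ^ p.natDegree))) := by
  have hn : 2 ≤ p.natDegree := by have := hL.1; omega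
  rcases (hp a ha).lt_or_eq with h | h
  · have h1 := poly_interior hs hs2 hL hp ha hd h
    exact ⟨h1.le, fun h2 => absurd h2 (not_le.2 h1)⟩
  · have hcard := card_der hn
    have h1 : ((derivative p).roots.card : ℝ) ≤
        ((derivative p).roots.map (fun w : ℂ => ‖w - a‖⁻¹ ^ (1 : ℝ))).sum := by
      rw [hcard]
      exact (re_sum hn hp ha hd h).trans (re_le_sum _ h)
    have h2 := sum_bern one_pos hs.le (derivative p).roots a
    rw [div_one] at h2
    constructor
    · rw [← hcard]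
      nlinarith
    · intro h3
      rw [← hcard] at h3
      have h4 := all_one hs _ a h1 h3
      apply extremal hn hp ha hd
      rw [← hcard]
      have h5 : (derivative p).roots.map (fun w : ℂ => (‖w - a‖ ^ 2)⁻¹) =
          (derivative p).roots.map (fun _ => (1 : ℝ)) := by
        refine Multiset.map_congr rfl fun w hw => ?_
        rw [← inv_pow, h4 w hw, one_pow]
      rw [h5, Multiset.map_const', Multiset.sum_replicate]
      simp

end Pool.Agent.H981.Sen
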