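import Pool.Agent.H981.Sen.Pair
import Pool.Graph.R_seed8.W470.Sen.Centre

set_option autoImplicit false

/-!
# The integral of the pair sum and the main inequality
-/

open MeasureTheory

namespace Pool.Agent.H981.Sen

open Finset

section

variable {m : ℕ} {p a : ℝ} {v : Fin m → ℂ} (hp : 1 < p) (hp2 : p ≤ 2) (ha0 : 0 < a) (ha1 : a < 1)
  (hq : ∀ k, ‖1 - (a : ℂ) * v k‖ ≤ ‖v k‖) (hU : ∑ k, ‖v k‖ ^ p ≤ m)

include hp hU in
lemma sum_norm_le : ∑ k, ‖v k‖ ≤ m := by
  have h1 : ∑ k, ‖v k‖ ≤ ∑ k, (dd p ‖v k‖ + 1) := by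
    refine Finset.sum_le_sum fun k _ => ?_
    have := chi_nonneg hp (norm_nonneg (v k))
    unfold chi at this
    linarith
  rw [Finset.sum_add_distrib] at h1
  simp only [Finset.sum_const, Finset.card_univ, Fintype.card_fin, nsmul_eq_mul, mul_one] at h1
  have := sum_dd_le hp v hU
  linarith

include hp hU in
lemma mean_le (hm : 0 < m) : ‖(∑ j, v j) / (m : ℂ)‖ ≤ 1 := by
  have hm' : (0 : ℝ) < m := by exact_mod_cast hm
  rw [norm_div, Complex.norm_natCast, div_le_one hm']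
  exact (norm_sum_le _ _).trans (sum_norm_le hp hU)

include hp hU in
lemma prod_norm_le_one : ∏ k, ‖v k‖ ≤ 1 := by
  have h1 : ∏ k, ‖v k‖ ≤ ∏ k, Real.exp (dd p ‖v k‖) := by
    refine Finset.prod_le_prod (fun _ _ => norm_nonneg _) fun k _ => ?_
    have h2 := chi_nonneg hp (norm_nonneg (v k))
    unfold chi at h2
    have h3 := Real.add_one_le_exp (dd p ‖v k‖)
    linarith
  rw [← Real.exp_sum] at h1
  refine h1.trans ?_
  rw [← Real.exp_zero]
  exact Real.exp_le_exp.2 (sum_dd_le hp v hU)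

include hp hp2 ha0 ha1 hq in
lemma RR_ge_a : cc p / 4 * a ^ 2 * m ≤ RR p a v := by
  have : ∑ _k : Fin m, cc p / 4 * a ^ 2 ≤ RR p a v :=
    Finset.sum_le_sum fun k _ => X_ge hp hp2 ha0 ha1 (hq k)
  simp only [Finset.sum_const, Finset.card_univ, Fintype.card_fin, nsmul_eq_mul] at this
  linarith

include hp hp2 ha0 ha1 hq in
lemma RR_ge_G : cc p * GG a v ≤ RR p a v := by
  unfold GG
  rw [Finset.mul_sum]
  exact Finset.sum_le_sum fun k _ => gg_le_X hp hp2 ha0 ha1 (hq k)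

omit hp in
include ha0 hq in
lemma chi_le_RR : ∑ k, chi p ‖v k‖ ≤ RR p a v := by
  unfold RR
  refine Finset.sum_le_sum fun k _ => ?_
  have := phi_nonneg ha0 (hq k)
  linarith

include hp in
lemma chi_sum_nonneg : 0 ≤ ∑ k, chi p ‖v k‖ :=
  Finset.sum_nonneg fun k _ => chi_nonneg hp (norm_nonneg _)

include hp hU in
lemma chi_sum_le (hm : 0 < m) : ∑ k, chi p ‖v k‖ ≤ m * (1 - ‖(∑ j, v j) / (m : ℂ)‖) := by
  have hm' : (0 : ℝ) < m := by exact_mod_cast hm
  have h1 : ∑ k, chi p ‖v k‖ = ∑ k, dd p ‖v k‖ + m - ∑ k, ‖v k‖ := by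
    unfold chi
    rw [Finset.sum_sub_distrib, Finset.sum_sub_distrib]
    simp only [Finset.sum_const, Finset.card_univ, Fintype.card_fin, nsmul_eq_mul, mul_one]
    ring
  have h2 : m * ‖(∑ j, v j) / (m : ℂ)‖ ≤ ∑ k, ‖v k‖ := by
    rw [norm_div, Complex.norm_natCast, mul_div_cancel₀ _ hm'.ne']
    exact norm_sum_le _ _
  have h3 := sum_dd_le hp v hU
  rw [h1]
  linarith

include hp hp2 ha0 ha1 hq hU in
/-- the coefficient of the pair bound -/
lemma coef_le (hm : 0 < m) :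
    21 / (2 * m) * (a ^ 2 * LL v + a ^ p * HV p v) ≤
      3000 / cc p ^ 2 * RR p a v * (1 - a * ‖(∑ j, v j) / (m : ℂ)‖) := by
  have hm' : (0 : ℝ) < m := by exact_mod_cast hm
  have hc := cc_pos hp
  have hc2 := cc_le hp2
  have hL := LL_le hp hp2 ha0 ha1 hq hU hm
  have hH := HV_le hp hp2 hU
  have hμ := mean_le hp hU hm
  have hRa := RR_ge_a hp hp2 ha0 ha1 hq
  have hRc := chi_le_RR (p := p) ha0 hq
  have hχ0 := chi_sum_nonneg (v := v) hp
  have hχm := chi_sum_le hp hU hm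
  have hμ0 := norm_nonneg ((∑ j, v j) / (m : ℂ))
  set μ := ‖(∑ j, v j) / (m : ℂ)‖ with hμd
  set S := 1 - a * μ with hS
  set R := RR p a v with hR
  set c := cc p with hcd
  set X := ∑ k, chi p ‖v k‖ with hX
  have hS1 : 1 - μ ≤ S := by rw [hS]; nlinarith
  have hS0 : 0 ≤ S := by linarith
  have hR0 : 0 ≤ R := by linarith
  have hap : a ^ p ≤ 1 := Real.rpow_le_one ha0.le ha1.le (by linarith)
  have hap0 : 0 ≤ a ^ p := Real.rpow_nonneg ha0.le _
  -- first part
  have h1 : 21 / (2 * m) * (a ^ 2 * LL v) ≤ 168 / c ^ 2 * (R * S) := by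
    have e1 : a ^ 2 * LL v ≤ a ^ 2 * (4 * m ^ 2 / c * S) := by
      refine mul_le_mul_of_nonneg_left (hL.trans ?_) (sq_nonneg a)
      exact mul_le_mul_of_nonneg_left hS1 (by positivity)
    have e2 := mul_le_mul_of_nonneg_left e1 (show (0 : ℝ) ≤ 21 / (2 * m) by positivity)
    refine e2.trans ?_
    have e3 : 21 / (2 * (m : ℝ)) * (a ^ 2 * (4 * m ^ 2 / c * S)) = 168 / c ^ 2 * (c / 4 * a ^ 2 * m * S) := by
      field_simp; ring
    rw [e3]
    exact mul_le_mul_of_nonneg_left (mul_le_mul_of_nonneg_right hRa hS0) (by positivity)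
  -- second part
  have h2 : a ^ p * X ≤ 16 / c * (R * S) := by
    rcases le_or_gt a (1 / 2) with h | h
    · have hSh : 1 / 2 ≤ S := by rw [hS]; nlinarith
      have e1 : a ^ p * X ≤ 1 * R := mul_le_mul hap hRc hχ0 zero_le_one
      have e2 : R * (1 / 2) ≤ R * S := mul_le_mul_of_nonneg_left hSh hR0
      have e3 : 2 ≤ 16 / c := by rw [le_div_iff₀ hc]; linarith
      nlinarith [mul_nonneg hR0 hS0]
    · have e1 : a ^ p * X ≤ 1 * (m * S) :=
        mul_le_mul hap (hχm.trans (mul_le_mul_of_nonneg_left hS1 hm'.le)) hχ0 zero_le_one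
      have e2 : (m : ℝ) ≤ 16 / c * R := by
        rw [div_mul_eq_mul_div, le_div_iff₀ hc]
        have : 1 / 4 ≤ a ^ 2 := by nlinarith
        have := mul_le_mul_of_nonneg_left this (show 0 ≤ c * m by positivity)
        nlinarith
      have e3 := mul_le_mul_of_nonneg_right e2 hS0
      linarith
  have h3 : 21 / (2 * m) * (a ^ p * HV p v) ≤ 2688 / c ^ 2 * (R * S) := by
    have e1 : a ^ p * HV p v ≤ a ^ p * (16 * m / c * X) := mul_le_mul_of_nonneg_left hH hap0
    have e2 := mul_le_mul_of_nonneg_left e1 (show (0 : ℝ) ≤ 21 / (2 * m) by positivity)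
    refine e2.trans ?_
    have e3 : 21 / (2 * (m : ℝ)) * (a ^ p * (16 * m / c * X)) = 168 / c * (a ^ p * X) := by
      field_simp; ring
    rw [e3]
    refine (mul_le_mul_of_nonneg_left h2 (show 0 ≤ 168 / c by positivity)).trans (le_of_eq ?_)
    field_simp
    ring
  rw [mul_add]
  have h4 : 168 / c ^ 2 * (R * S) + 2688 / c ^ 2 * (R * S) ≤ 3000 / c ^ 2 * R * S := by
    have : 168 / c ^ 2 * (R * S) + 2688 / c ^ 2 * (R * S) = 2856 / c ^ 2 * (R * S) := by ring
    rw [this, mul_assoc]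
    refine mul_le_mul_of_nonneg_right ?_ (mul_nonneg hR0 hS0)
    exact div_le_div_of_nonneg_right (by norm_num) (by positivity)
  linarith

lemma GG_nonneg (ha0 : 0 < a) (ha1 : a < 1) (hq : ∀ k, ‖1 - (a : ℂ) * v k‖ ≤ ‖v k‖) :
    0 ≤ GG a v := Finset.sum_nonneg fun k _ => gg_nonneg ha0 ha1 (hq k)

lemma kap_pos (hp : 1 < p) (ha0 : 0 < a) (ha1 : a < 1) : 0 < kap p a := by
  have hc := cc_pos hp
  have : 0 < 1 - a ^ 2 := by nlinarith
  unfold kap
  positivity

/-- splitting the decay -/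
lemma exp_HH_le (hp : 1 < p) (ha0 : 0 < a) (ha1 : a < 1) (hR : 0 ≤ RR p a v) (hG : 0 ≤ GG a v)
    {t : ℝ} (ht0 : 0 ≤ t) (ht1 : t ≤ 1) :
    Real.exp (-HH p a v t) ≤ Real.exp (-(cc p / 16 * RR p a v * t)) +
      Real.exp (-(kap p a * GG a v / 4)) * Real.exp (-(cc p / 16 * RR p a v * (1 - t))) := by
  have hc := cc_pos hp
  have hk := kap_pos hp ha0 ha1
  have hcR : 0 ≤ cc p * RR p a v := mul_nonneg hc.le hR
  have hkG : 0 ≤ kap p a * GG a v := mul_nonneg hk.le hG
  rw [← Real.exp_add]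
  unfold HH
  rcases le_or_gt t (1 / 2) with h | h
  · have : -(cc p / 8 * (t * (1 - t)) * RR p a v + t / 2 * (kap p a * GG a v)) ≤
        -(cc p / 16 * RR p a v * t) := by
      have e1 : cc p / 16 * RR p a v * t ≤ cc p / 8 * (t * (1 - t)) * RR p a v := by
        have : cc p / 8 * (t * (1 - t)) * RR p a v - cc p / 16 * RR p a v * t =
          (cc p * RR p a v) * (t / 16 * (1 - 2 * t)) := by ring
        have h2 : 0 ≤ (cc p * RR p a v) * (t / 16 * (1 - 2 * t)) :=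
          mul_nonneg hcR (mul_nonneg (by linarith) (by linarith))
        linarith
      have e2 : 0 ≤ t / 2 * (kap p a * GG a v) := mul_nonneg (by linarith) hkG
      linarith
    have := Real.exp_le_exp.2 this
    have h3 := Real.exp_pos (-(kap p a * GG a v / 4) + -(cc p / 16 * RR p a v * (1 - t)))
    linarith
  · have : -(cc p / 8 * (t * (1 - t)) * RR p a v + t / 2 * (kap p a * GG a v)) ≤
        -(kap p a * GG a v / 4) + -(cc p / 16 * RR p a v * (1 - t)) := by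
      have e1 : cc p / 16 * RR p a v * (1 - t) ≤ cc p / 8 * (t * (1 - t)) * RR p a v := by
        have : cc p / 8 * (t * (1 - t)) * RR p a v - cc p / 16 * RR p a v * (1 - t) =
          (cc p * RR p a v) * ((1 - t) / 16 * (2 * t - 1)) := by ring
        have h2 : 0 ≤ (cc p * RR p a v) * ((1 - t) / 16 * (2 * t - 1)) :=
          mul_nonneg hcR (mul_nonneg (by linarith) (by linarith))
        linarith
      have e2 : kap p a * GG a v / 4 ≤ t / 2 * (kap p a * GG a v) := by nlinarith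
      linarith
    have := Real.exp_le_exp.2 this
    have h3 := Real.exp_pos (-(cc p / 16 * RR p a v * t))
    linarith

/-- `t^(p-1) e^(-lt) ≤ 2 l^(1-p) e^(-lt/2)` -/
lemma rpow_exp_le (hp : 1 < p) (hp2 : p ≤ 2) {l t : ℝ} (hl : 0 < l) (ht : 0 ≤ t) :
    t ^ (p - 1) * Real.exp (-(l * t)) ≤ 2 * l ^ (1 - p) * Real.exp (-(l / 2 * t)) := by
  have hx : 0 ≤ l * t := mul_nonneg hl.le ht
  have h1 : (l * t) ^ (p - 1) ≤ 1 + l * t := by
    rcases le_or_gt (l * t) 1 with h | h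
    · have := Real.rpow_le_one hx h (by linarith : 0 ≤ p - 1)
      linarith
    · have := Real.rpow_le_rpow_of_exponent_le h.le (by linarith : p - 1 ≤ 1)
      rw [Real.rpow_one] at this
      linarith
  have h2 : t ^ (p - 1) = l ^ (1 - p) * (l * t) ^ (p - 1) := by
    rw [Real.mul_rpow hl.le ht, ← mul_assoc, ← Real.rpow_add hl]
    rw [show 1 - p + (p - 1) = 0 by ring, Real.rpow_zero, one_mul]
  have h3 : (1 + l * t) * Real.exp (-(l * t)) ≤ 2 * Real.exp (-(l / 2 * t)) := by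
    have e1 : Real.exp (-(l * t)) = Real.exp (-(l / 2 * t)) * Real.exp (-(l / 2 * t)) := by
      rw [← Real.exp_add]; congr 1; ring
    have e2 : (1 + l * t) * Real.exp (-(l / 2 * t)) ≤ 2 := by
      have e3 := Real.add_one_le_exp (l / 2 * t)
      have e4 : (1 + l * t) ≤ 2 * Real.exp (l / 2 * t) := by linarith
      have e5 := mul_le_mul_of_nonneg_right e4 (Real.exp_pos (-(l / 2 * t))).le
      rw [mul_assoc, ← Real.exp_add, add_neg_cancel, Real.exp_zero, mul_one] at e5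
      exact e5
    rw [e1, ← mul_assoc]
    exact mul_le_mul_of_nonneg_right e2 (Real.exp_pos _).le
  rw [h2, mul_assoc]
  have h4 : (l * t) ^ (p - 1) * Real.exp (-(l * t)) ≤ 2 * Real.exp (-(l / 2 * t)) :=
    (mul_le_mul_of_nonneg_right h1 (Real.exp_pos _).le).trans h3
  have h5 := mul_le_mul_of_nonneg_left h4 (Real.rpow_nonneg hl.le (1 - p))
  refine h5.trans (le_of_eq ?_)
  ring

lemma int_exp {l : ℝ} (hl : 0 < l) : ∫ t in (0:ℝ)..1, Real.exp (-(l * t)) ≤ 1 / l := by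
  have hd : ∀ t ∈ Set.uIcc (0:ℝ) 1, HasDerivAt (fun t : ℝ => -(1 / l) * Real.exp (-(l * t)))
      (Real.exp (-(l * t))) t := by
    intro t _
    have h1 : HasDerivAt (fun t : ℝ => -(l * t)) (-l) t := by
      have h0 := ((hasDerivAt_id t).const_mul l).fun_neg
      simpa using h0
    have h2 := (h1.exp).const_mul (-(1 / l))
    refine h2.congr_deriv ?_
    field_simp
  have hi : IntervalIntegrable (fun t : ℝ => Real.exp (-(l * t))) volume 0 1 := by
    apply Continuous.intervalIntegrable; fun_prop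
  rw [intervalIntegral.integral_eq_sub_of_hasDerivAt hd hi]
  simp only [mul_one, mul_zero, neg_zero, Real.exp_zero]
  have := Real.exp_pos (-l)
  have h2 : 0 ≤ 1 / l * Real.exp (-l) := by positivity
  linarith

lemma int_exp' {l : ℝ} (hl : 0 < l) : ∫ t in (0:ℝ)..1, Real.exp (-(l * (1 - t))) ≤ 1 / l := by
  have h := intervalIntegral.integral_comp_sub_left (fun t : ℝ => Real.exp (-(l * t))) (1 : ℝ)
    (a := 0) (b := 1)
  rw [h, sub_self, sub_zero]
  exact int_exp hl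

include hp hp2 ha0 ha1 hq hU in
/-- **the error term** -/
lemma err_le (hm : 0 < m) (hR : 0 < RR p a v) :
    ‖∫ t in (0:ℝ)..1, (a : ℂ) * ∑ k, (v k - (∑ j, v j) / m) *
        ∏ j ∈ univ.erase k, (1 - (a : ℂ) * t * v j)‖ ≤
      48000 / cc p ^ 3 * (4 * (cc p / 16 * RR p a v) ^ (1 - p) +
        Real.exp (-(kap p a * GG a v / 4))) * (1 - a * ‖(∑ j, v j) / (m : ℂ)‖) := by
  have hm' : (0 : ℝ) < m := by exact_mod_cast hm
  have hc := cc_pos hp
  have hG := GG_nonneg ha0 ha1 hq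
  have hco := coef_le hp hp2 ha0 ha1 hq hU hm
  have hμ := mean_le hp hU hm
  have hμ0 := norm_nonneg ((∑ j, v j) / (m : ℂ))
  set S := 1 - a * ‖(∑ j, v j) / (m : ℂ)‖ with hS
  have hS0 : 0 ≤ S := by rw [hS]; nlinarith
  set l := cc p / 16 * RR p a v with hl
  have hl0 : 0 < l := by rw [hl]; positivity
  set E := Real.exp (-(kap p a * GG a v / 4)) with hE
  have hE0 : 0 < E := Real.exp_pos _
  have hLL : 0 ≤ LL v := by
    unfold LL
    refine Finset.sum_nonneg fun k _ => Finset.sum_nonneg fun l _ => ?_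
    split_ifs <;> positivity
  have hHV : 0 ≤ HV p v := by
    unfold HV
    refine Finset.sum_nonneg fun k _ => Finset.sum_nonneg fun l _ => ?_
    split_ifs <;> positivity
  have hpt : ∀ t ∈ Set.Icc (0:ℝ) 1, ‖(a : ℂ) * ∑ k, (v k - (∑ j, v j) / m) *
        ∏ j ∈ univ.erase k, (1 - (a : ℂ) * t * v j)‖ ≤
      (3000 / cc p ^ 2 * RR p a v * S) * (2 * l ^ (1 - p) * Real.exp (-(l / 2 * t)) +
        E * Real.exp (-(l * (1 - t)))) := by
    intro t ht
    have ht0 := ht.1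
    have ht1 := ht.2
    have h1 := pair_bound hp hp2 ha0 ha1 hq hU hm ht0 ht1
    rw [norm_mul, Complex.norm_real, Real.norm_eq_abs, abs_of_pos ha0]
    have h2 := mul_le_mul_of_nonneg_left h1 ha0.le
    refine h2.trans ?_
    have htp : t ≤ t ^ (p - 1) := by
      have := Real.rpow_le_rpow_of_exponent_ge' ht0 ht1 (by linarith : 0 ≤ p - 1)
        (by linarith : p - 1 ≤ 1)
      rwa [Real.rpow_one] at this
    have htp0 : 0 ≤ t ^ (p - 1) := Real.rpow_nonneg ht0 _
    have htp1 : t ^ (p - 1) ≤ 1 := Real.rpow_le_one ht0 ht1 (by linarith)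
    have hX := Real.exp_pos (-HH p a v t)
    have e1 : a * (21 / (2 * m) * Real.exp (-HH p a v t) *
        (a * t * LL v + (a * t) ^ (p - 1) * HV p v)) ≤
        (t ^ (p - 1) * Real.exp (-HH p a v t)) *
          (21 / (2 * m) * (a ^ 2 * LL v + a ^ p * HV p v)) := by
      have e2 : (a * t) ^ (p - 1) = a ^ (p - 1) * t ^ (p - 1) := Real.mul_rpow ha0.le ht0
      have e3 : a ^ p = a * a ^ (p - 1) := by
        rw [Real.rpow_sub_one ha0.ne']; field_simp
      rw [e2, e3]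
      have e4 : a * t * LL v ≤ a * t ^ (p - 1) * LL v :=
        mul_le_mul_of_nonneg_right (mul_le_mul_of_nonneg_left htp ha0.le) hLL
      have e5 : 0 ≤ a * (21 / (2 * m) * Real.exp (-HH p a v t)) := by positivity
      have e6 := mul_le_mul_of_nonneg_left e4 e5
      nlinarith [e6]
    refine e1.trans ?_
    have e7 : t ^ (p - 1) * Real.exp (-HH p a v t) ≤ 2 * l ^ (1 - p) * Real.exp (-(l / 2 * t)) +
        E * Real.exp (-(l * (1 - t))) := by
      have f1 := exp_HH_le (v := v) hp ha0 ha1 hR.le hG ht0 ht1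
      have f2 := rpow_exp_le hp hp2 hl0 ht0
      have f3 := mul_le_mul_of_nonneg_left f1 htp0
      rw [mul_add] at f3
      have f4 : t ^ (p - 1) * (E * Real.exp (-(l * (1 - t)))) ≤ 1 * (E * Real.exp (-(l * (1 - t)))) :=
        mul_le_mul_of_nonneg_right htp1 (by positivity)
      linarith
    have e8 : 0 ≤ 21 / (2 * (m : ℝ)) * (a ^ 2 * LL v + a ^ p * HV p v) := by positivity
    calc (t ^ (p - 1) * Real.exp (-HH p a v t)) *
          (21 / (2 * m) * (a ^ 2 * LL v + a ^ p * HV p v)) ≤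
        (2 * l ^ (1 - p) * Real.exp (-(l / 2 * t)) + E * Real.exp (-(l * (1 - t)))) *
          (21 / (2 * m) * (a ^ 2 * LL v + a ^ p * HV p v)) := mul_le_mul_of_nonneg_right e7 e8
      _ ≤ (2 * l ^ (1 - p) * Real.exp (-(l / 2 * t)) + E * Real.exp (-(l * (1 - t)))) *
          (3000 / cc p ^ 2 * RR p a v * S) := mul_le_mul_of_nonneg_left hco (by positivity)
      _ = _ := by ring
  have hK : 0 ≤ 3000 / cc p ^ 2 * RR p a v * S := by positivity
  have hlp : 0 < l ^ (1 - p) := Real.rpow_pos_of_pos hl0 _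
  have hi1 : IntervalIntegrable (fun t : ℝ => 2 * l ^ (1 - p) * Real.exp (-(l / 2 * t)))
      volume 0 1 := by apply Continuous.intervalIntegrable; fun_prop
  have hi2 : IntervalIntegrable (fun t : ℝ => E * Real.exp (-(l * (1 - t))))
      volume 0 1 := by apply Continuous.intervalIntegrable; fun_prop
  calc ‖∫ t in (0:ℝ)..1, (a : ℂ) * ∑ k, (v k - (∑ j, v j) / m) *
        ∏ j ∈ univ.erase k, (1 - (a : ℂ) * t * v j)‖
      ≤ ∫ t in (0:ℝ)..1, ‖(a : ℂ) * ∑ k, (v k - (∑ j, v j) / m) *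
        ∏ j ∈ univ.erase k, (1 - (a : ℂ) * t * v j)‖ :=
        intervalIntegral.norm_integral_le_integral_norm zero_le_one
    _ ≤ ∫ t in (0:ℝ)..1, (3000 / cc p ^ 2 * RR p a v * S) *
        (2 * l ^ (1 - p) * Real.exp (-(l / 2 * t)) + E * Real.exp (-(l * (1 - t)))) := by
        refine intervalIntegral.integral_mono_on zero_le_one ?_ ?_ hpt
        · apply Continuous.intervalIntegrable; fun_prop
        · apply Continuous.intervalIntegrable; fun_prop
    _ = (3000 / cc p ^ 2 * RR p a v * S) *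
        (2 * l ^ (1 - p) * (∫ t in (0:ℝ)..1, Real.exp (-(l / 2 * t))) +
          E * ∫ t in (0:ℝ)..1, Real.exp (-(l * (1 - t)))) := by
        rw [intervalIntegral.integral_const_mul, intervalIntegral.integral_add hi1 hi2,
          intervalIntegral.integral_const_mul, intervalIntegral.integral_const_mul]
    _ ≤ (3000 / cc p ^ 2 * RR p a v * S) *
        (2 * l ^ (1 - p) * (1 / (l / 2)) + E * (1 / l)) := by
        refine mul_le_mul_of_nonneg_left (add_le_add ?_ ?_) hK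
        · exact mul_le_mul_of_nonneg_left (int_exp (by positivity)) (by positivity)
        · exact mul_le_mul_of_nonneg_left (int_exp' hl0) hE0.le
    _ = 48000 / cc p ^ 3 * (4 * l ^ (1 - p) + E) * S := by
        have : RR p a v = 16 * l / cc p := by rw [hl]; field_simp
        rw [this]
        field_simp
        ring

include hp hp2 ha0 ha1 hq hU in
/-- **the main inequality** -/
lemma main (hm : 0 < m) (hR : 0 < RR p a v)
    (hC : ‖(m + 1 : ℂ) * ∫ t in (0:ℝ)..1, ∏ k, (1 - (a : ℂ) * t * v k)‖ ≤ ∏ k, ‖v k‖)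
    (hK : 48000 / cc p ^ 3 * (4 * (cc p / 16 * RR p a v) ^ (1 - p) +
        Real.exp (-(kap p a * GG a v / 4))) ≤ 1 / 2) :
    1 - a ≤ 4 * ‖∏ k, (1 - (a : ℂ) * v k)‖ := by
  have hid := Pool.Agent.W470.Sen.var_ident a v ((∑ j, v j) / (m : ℂ))
  have herr := err_le hp hp2 ha0 ha1 hq hU hm hR
  have hμ := mean_le hp hU hm
  have hP := prod_norm_le_one hp hU
  set μ := (∑ j, v j) / (m : ℂ) with hμd
  set I := ∫ t in (0:ℝ)..1, (a : ℂ) * ∑ k, (v k - μ) *
        ∏ j ∈ univ.erase k, (1 - (a : ℂ) * t * v j) with hI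
  set C := (m + 1 : ℂ) * ∫ t in (0:ℝ)..1, ∏ k, (1 - (a : ℂ) * t * v k) with hCd
  set F := ∏ k, (1 - (a : ℂ) * v k) with hF
  have hμ0 := norm_nonneg μ
  have h1 : (1 : ℂ) = a * μ * C + (1 - a * μ) * F + I := by rw [hid]; ring
  have h2 : (1 : ℝ) ≤ a * ‖μ‖ * ‖C‖ + ‖1 - (a : ℂ) * μ‖ * ‖F‖ + ‖I‖ := by
    have h3 : ‖(1 : ℂ)‖ ≤ ‖(a : ℂ) * μ * C‖ + ‖(1 - a * μ) * F‖ + ‖I‖ := by
      calc ‖(1 : ℂ)‖ = ‖(a : ℂ) * μ * C + (1 - a * μ) * F + I‖ := by rw [← h1]
        _ ≤ _ := norm_add₃_le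
    have e1 : ‖(a : ℂ) * μ * C‖ = a * ‖μ‖ * ‖C‖ := by
      rw [norm_mul ((a : ℂ) * μ) C, norm_mul (a : ℂ) μ, Complex.norm_real, Real.norm_eq_abs,
        abs_of_pos ha0]
    have e2 : ‖(1 - a * μ) * F‖ = ‖1 - (a : ℂ) * μ‖ * ‖F‖ := norm_mul _ _
    rw [norm_one, e1, e2] at h3
    exact h3
  have h4 : ‖1 - (a : ℂ) * μ‖ ≤ 2 := by
    refine (norm_sub_le _ _).trans ?_
    rw [norm_one, norm_mul, Complex.norm_real, Real.norm_eq_abs, abs_of_pos ha0]
    nlinarith
  have hS0 : 0 ≤ 1 - a * ‖μ‖ := by nlinarith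
  have h5 : ‖I‖ ≤ 1 / 2 * (1 - a * ‖μ‖) := herr.trans (mul_le_mul_of_nonneg_right hK hS0)
  have h6 : a * ‖μ‖ * ‖C‖ ≤ a * ‖μ‖ * 1 :=
    mul_le_mul_of_nonneg_left (hC.trans hP) (mul_nonneg ha0.le hμ0)
  have h7 : ‖1 - (a : ℂ) * μ‖ * ‖F‖ ≤ 2 * ‖F‖ := mul_le_mul_of_nonneg_right h4 (norm_nonneg F)
  nlinarith

include hp hp2 ha0 ha1 hq hU in
lemma F_le : ‖∏ k, (1 - (a : ℂ) * v k)‖ ≤ Real.exp (-(kap p a * GG a v)) := by
  refine (prod_le_exp univ (fun k => 1 - (a : ℂ) * v k)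
    (fun k => dd p ‖v k‖ - kap p a * gg a (v k)) fun k => ?_).trans (Real.exp_le_exp.2 ?_)
  · have h := bound_g hp hp2 ha0 ha1 (hq k) (zero_le_one) (le_refl (1:ℝ))
    simpa using h
  · rw [Finset.sum_sub_distrib, ← Finset.mul_sum]
    have := sum_dd_le hp v hU
    unfold GG
    linarith

end

end Pool.Agent.H981.Sen
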