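import Pool.Agent.H981.Sen.Pt

set_option autoImplicit false

/-!
# Products with one or two factors removed, and sums over pairs
-/

namespace Pool.Agent.H981.Sen

open Finset

/-- sum of `χ + φ` -/
noncomputable def RR {m : ℕ} (p a : ℝ) (v : Fin m → ℂ) : ℝ := ∑ k, (chi p ‖v k‖ + phi a (v k))

/-- sum of the Green's functions -/
noncomputable def GG {m : ℕ} (a : ℝ) (v : Fin m → ℂ) : ℝ := ∑ k, gg a (v k)

/-- the exponent of the decay -/
noncomputable def HH {m : ℕ} (p a : ℝ) (v : Fin m → ℂ) (t : ℝ) : ℝ :=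
  cc p / 8 * (t * (1 - t)) * RR p a v + t / 2 * (kap p a * GG a v)

lemma prod_le_exp {ι : Type*} (s : Finset ι) (f : ι → ℂ) (h : ι → ℝ)
    (hf : ∀ k, ‖f k‖ ≤ Real.exp (h k)) : ‖∏ k ∈ s, f k‖ ≤ Real.exp (∑ k ∈ s, h k) := by
  rw [norm_prod, Real.exp_sum]
  exact Finset.prod_le_prod (fun _ _ => norm_nonneg _) fun k _ => hf k

lemma sum_dd_le {m : ℕ} {p : ℝ} (hp : 1 < p) (v : Fin m → ℂ) (hU : ∑ k, ‖v k‖ ^ p ≤ m) :
    ∑ k, dd p ‖v k‖ ≤ 0 := by
  unfold dd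
  rw [← Finset.sum_div]
  apply div_nonpos_of_nonpos_of_nonneg _ (by linarith)
  rw [Finset.sum_sub_distrib]
  simp only [Finset.sum_const, Finset.card_univ, Fintype.card_fin, nsmul_eq_mul, mul_one]
  linarith

section

variable {m : ℕ} {p a : ℝ} {v : Fin m → ℂ} (hp : 1 < p) (hp2 : p ≤ 2) (ha0 : 0 < a) (ha1 : a < 1)
  (hq : ∀ k, ‖1 - (a : ℂ) * v k‖ ≤ ‖v k‖) (hU : ∑ k, ‖v k‖ ^ p ≤ m)

lemma sum_hh (t : ℝ) : ∑ k, hh p a (v k) t = t * ∑ k, dd p ‖v k‖ - HH p a v t := by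
  unfold hh HH RR GG
  rw [Finset.sum_sub_distrib, Finset.sum_sub_distrib, ← Finset.mul_sum, ← Finset.mul_sum,
    ← Finset.mul_sum, ← Finset.mul_sum]
  ring

include hp hU in
lemma sum_hh_le {t : ℝ} (ht0 : 0 ≤ t) : ∑ k, hh p a (v k) t ≤ -HH p a v t := by
  rw [sum_hh]
  have := mul_nonneg ht0 (neg_nonneg.2 (sum_dd_le hp v hU))
  linarith

include hp hp2 ha0 ha1 hq hU in
lemma prod_erase {t : ℝ} (ht0 : 0 ≤ t) (ht1 : t ≤ 1) (k : Fin m) :
    ‖∏ j ∈ univ.erase k, (1 - (a : ℂ) * t * v j)‖ ≤ Real.exp (3 / 2 - HH p a v t) := by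
  refine (prod_le_exp _ _ _ fun k => bound_hh hp hp2 ha0 ha1 (hq k) ht0 ht1).trans
    (Real.exp_le_exp.2 ?_)
  have h1 := Finset.add_sum_erase univ (fun k => hh p a (v k) t) (mem_univ k)
  have h2 := sum_hh_le (a := a) hp hU ht0
  have h3 := hh_ge hp hp2 ha0 ha1 (hq k) ht0 ht1
  linarith

include hp hp2 ha0 ha1 hq hU in
lemma prod_erase2 {t : ℝ} (ht0 : 0 ≤ t) (ht1 : t ≤ 1) {k l : Fin m} (hkl : l ≠ k) :
    ‖∏ j ∈ (univ.erase k).erase l, (1 - (a : ℂ) * t * v j)‖ ≤ Real.exp (3 - HH p a v t) := by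
  refine (prod_le_exp _ _ _ fun k => bound_hh hp hp2 ha0 ha1 (hq k) ht0 ht1).trans
    (Real.exp_le_exp.2 ?_)
  have h1 := Finset.add_sum_erase univ (fun k => hh p a (v k) t) (mem_univ k)
  have h1' := Finset.add_sum_erase (univ.erase k) (fun k => hh p a (v k) t)
    (mem_erase.2 ⟨hkl, mem_univ l⟩)
  have h2 := sum_hh_le (a := a) hp hU ht0
  have h3 := hh_ge hp hp2 ha0 ha1 (hq k) ht0 ht1
  have h4 := hh_ge hp hp2 ha0 ha1 (hq l) ht0 ht1
  linarith

lemma exp3_lt : Real.exp 3 ≤ 21 := by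
  have h := Real.exp_one_lt_d9
  have e : Real.exp 3 = Real.exp 1 ^ 3 := by
    rw [← Real.exp_nat_mul]; norm_num
  rw [e]
  have h0 := Real.exp_pos 1
  have : Real.exp 1 ^ 3 ≤ 2.7182818286 ^ 3 := pow_le_pow_left₀ h0.le h.le 3
  refine this.trans (by norm_num)

lemma exp32_lt : 2 * Real.exp (3 / 2) ≤ 21 := by
  have h := Real.exp_one_lt_d9
  have h0 := Real.exp_pos 1
  have h1 : Real.exp (3 / 2) ≤ Real.exp 2 := Real.exp_le_exp.2 (by norm_num)
  have e : Real.exp 2 = Real.exp 1 ^ 2 := by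
    rw [← Real.exp_nat_mul]; norm_num
  have : Real.exp 1 ^ 2 ≤ 2.7182818286 ^ 2 := pow_le_pow_left₀ h0.le h.le 2
  have h2 : (2.7182818286 : ℝ) ^ 2 ≤ 8 := by norm_num
  linarith

/-- difference of the products with one factor removed -/
lemma erase_diff (c : Fin m → ℂ) {k l : Fin m} (hkl : l ≠ k) :
    (∏ j ∈ univ.erase k, c j) - ∏ j ∈ univ.erase l, c j =
      (c l - c k) * ∏ j ∈ (univ.erase k).erase l, c j := by
  have h1 := Finset.mul_prod_erase (univ.erase k) c (mem_erase.2 ⟨hkl, mem_univ l⟩)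
  have h2 := Finset.mul_prod_erase (univ.erase l) c (mem_erase.2 ⟨hkl.symm, mem_univ k⟩)
  rw [← h1, ← h2, Finset.erase_right_comm]
  ring

include hp hp2 ha0 ha1 hq hU in
lemma diff_le {t : ℝ} (ht0 : 0 ≤ t) (ht1 : t ≤ 1) (k l : Fin m) :
    ‖(∏ j ∈ univ.erase k, (1 - (a : ℂ) * t * v j)) - ∏ j ∈ univ.erase l, (1 - (a : ℂ) * t * v j)‖ ≤
      21 * Real.exp (-HH p a v t) * min (a * t * ‖v k - v l‖) 1 := by
  have hE := Real.exp_pos (-HH p a v t)
  rcases eq_or_ne l k with rfl | hkl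
  · rw [sub_self, norm_zero]
    have : 0 ≤ min (a * t * ‖v l - v l‖) 1 := le_min (by positivity) zero_le_one
    positivity
  · rw [mul_min_of_nonneg _ _ (by positivity)]
    refine le_min ?_ ?_
    · rw [erase_diff _ hkl, norm_mul]
      have e1 : ‖(1 - (a : ℂ) * t * v l) - (1 - (a : ℂ) * t * v k)‖ = a * t * ‖v k - v l‖ := by
        have : (1 - (a : ℂ) * t * v l) - (1 - (a : ℂ) * t * v k) = ((a * t : ℝ) : ℂ) * (v k - v l) := by
          push_cast; ring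
        rw [this, norm_mul, Complex.norm_real, Real.norm_eq_abs, abs_of_nonneg (by positivity)]
      rw [e1]
      have e2 := prod_erase2 hp hp2 ha0 ha1 hq hU ht0 ht1 hkl
      have e3 : Real.exp (3 - HH p a v t) ≤ 21 * Real.exp (-HH p a v t) := by
        rw [sub_eq_add_neg, Real.exp_add]
        exact mul_le_mul_of_nonneg_right exp3_lt hE.le
      have := mul_le_mul_of_nonneg_left (e2.trans e3)
        (show 0 ≤ a * t * ‖v k - v l‖ by positivity)
      linarith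
    · have e2 := prod_erase hp hp2 ha0 ha1 hq hU ht0 ht1 k
      have e2' := prod_erase hp hp2 ha0 ha1 hq hU ht0 ht1 l
      have e3 : 2 * Real.exp (3 / 2 - HH p a v t) ≤ 21 * Real.exp (-HH p a v t) := by
        rw [sub_eq_add_neg, Real.exp_add, ← mul_assoc]
        exact mul_le_mul_of_nonneg_right exp32_lt hE.le
      have := norm_sub_le (∏ j ∈ univ.erase k, (1 - (a : ℂ) * t * v j))
        (∏ j ∈ univ.erase l, (1 - (a : ℂ) * t * v j))
      linarith

/-- antisymmetrisation -/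
lemma antisym (hm : 0 < m) (v P : Fin m → ℂ) :
    ∑ k, (v k - (∑ j, v j) / m) * P k = (1 / (2 * m)) * ∑ k, ∑ l, (v k - v l) * (P k - P l) := by
  have hmc : (m : ℂ) ≠ 0 := by exact_mod_cast hm.ne'
  have h1 : ∑ k, ∑ l, (v k - v l) * (P k - P l) =
      2 * m * ∑ k, v k * P k - 2 * (∑ k, v k) * ∑ k, P k := by
    have e : ∀ k l, (v k - v l) * (P k - P l) =
        v k * P k - v k * P l - v l * P k + v l * P l := fun k l => by ring
    simp_rw [e, Finset.sum_add_distrib, Finset.sum_sub_distrib]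
    have e1 : ∑ x, ∑ _y : Fin m, v x * P x = m * ∑ k, v k * P k := by
      simp [Finset.mul_sum]
    have e2 : ∑ _x : Fin m, ∑ y, v y * P y = m * ∑ k, v k * P k := by
      simp
    have e3 : ∑ x, ∑ y, v x * P y = (∑ k, v k) * ∑ k, P k := by
      rw [Finset.sum_mul_sum]
    have e4 : ∑ x, ∑ y, v y * P x = (∑ k, v k) * ∑ k, P k := by
      rw [Finset.sum_comm, Finset.sum_mul_sum]
    rw [e1, e2, e3, e4]
    ring
  rw [h1]
  simp_rw [sub_mul]
  rw [Finset.sum_sub_distrib, ← Finset.mul_sum]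
  field_simp

lemma min_le_rpow {p x : ℝ} (hp : 1 < p) (hp2 : p ≤ 2) (hx : 0 ≤ x) : min x 1 ≤ x ^ (p - 1) := by
  rcases le_or_gt x 1 with h | h
  · refine (min_le_left _ _).trans ?_
    have := Real.rpow_le_rpow_of_exponent_ge' hx h (by linarith : 0 ≤ p - 1) (by linarith : p - 1 ≤ 1)
    rwa [Real.rpow_one] at this
  · exact (min_le_right _ _).trans (Real.one_le_rpow h.le (by linarith))

lemma mul_min_le {p d x : ℝ} (hp : 1 < p) (hp2 : p ≤ 2) (hd : 0 ≤ d) (hx : 0 ≤ x) :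
    d * min (x * d) 1 ≤ x ^ (p - 1) * d ^ p := by
  have h := min_le_rpow hp hp2 (mul_nonneg hx hd)
  refine (mul_le_mul_of_nonneg_left h hd).trans (le_of_eq ?_)
  rw [Real.mul_rpow hx hd]
  rcases hd.eq_or_lt with h0 | h0
  · rw [← h0, Real.zero_rpow (by linarith : p ≠ 0)]; ring
  · rw [Real.rpow_sub_one h0.ne']
    field_simp

/-- light pairs -/
noncomputable def LL {m : ℕ} (v : Fin m → ℂ) : ℝ :=
  ∑ k, ∑ l, if ‖v k‖ ≤ 2 ∧ ‖v l‖ ≤ 2 then ‖v k - v l‖ ^ 2 else 0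

/-- the other pairs -/
noncomputable def HV {m : ℕ} (p : ℝ) (v : Fin m → ℂ) : ℝ :=
  ∑ k, ∑ l, if ‖v k‖ ≤ 2 ∧ ‖v l‖ ≤ 2 then 0 else ‖v k - v l‖ ^ p

include hp hp2 ha0 ha1 hq hU in
lemma pair_bound (hm : 0 < m) {t : ℝ} (ht0 : 0 ≤ t) (ht1 : t ≤ 1) :
    ‖∑ k, (v k - (∑ j, v j) / m) * ∏ j ∈ univ.erase k, (1 - (a : ℂ) * t * v j)‖ ≤
      21 / (2 * m) * Real.exp (-HH p a v t) * (a * t * LL v + (a * t) ^ (p - 1) * HV p v) := by
  have hm' : (0 : ℝ) < m := by exact_mod_cast hm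
  have hE := Real.exp_pos (-HH p a v t)
  rw [antisym hm, norm_mul]
  have e1 : ‖(1 / (2 * m) : ℂ)‖ = 1 / (2 * m) := by
    rw [show (1 / (2 * m) : ℂ) = ((1 / (2 * m) : ℝ) : ℂ) by push_cast; rfl, Complex.norm_real,
      Real.norm_eq_abs, abs_of_pos (by positivity)]
  rw [e1]
  have e2 : ‖∑ k, ∑ l, (v k - v l) * ((∏ j ∈ univ.erase k, (1 - (a : ℂ) * t * v j)) -
      ∏ j ∈ univ.erase l, (1 - (a : ℂ) * t * v j))‖ ≤
      ∑ k, ∑ l, 21 * Real.exp (-HH p a v t) *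
        (a * t * (if ‖v k‖ ≤ 2 ∧ ‖v l‖ ≤ 2 then ‖v k - v l‖ ^ 2 else 0) +
          (a * t) ^ (p - 1) * (if ‖v k‖ ≤ 2 ∧ ‖v l‖ ≤ 2 then 0 else ‖v k - v l‖ ^ p)) := by
    refine (norm_sum_le _ _).trans (Finset.sum_le_sum fun k _ => ?_)
    refine (norm_sum_le _ _).trans (Finset.sum_le_sum fun l _ => ?_)
    rw [norm_mul]
    have h1 := diff_le hp hp2 ha0 ha1 hq hU ht0 ht1 k l
    have h2 := mul_le_mul_of_nonneg_left h1 (norm_nonneg (v k - v l))
    refine h2.trans ?_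
    have h3 : ‖v k - v l‖ * (21 * Real.exp (-HH p a v t) * min (a * t * ‖v k - v l‖) 1) =
        21 * Real.exp (-HH p a v t) * (‖v k - v l‖ * min (a * t * ‖v k - v l‖) 1) := by ring
    rw [h3]
    refine mul_le_mul_of_nonneg_left ?_ (by positivity)
    split_ifs with h
    · have : min (a * t * ‖v k - v l‖) 1 ≤ a * t * ‖v k - v l‖ := min_le_left _ _
      have := mul_le_mul_of_nonneg_left this (norm_nonneg (v k - v l))
      rw [mul_zero, add_zero]
      nlinarith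
    · rw [mul_zero, zero_add]
      exact mul_min_le hp hp2 (norm_nonneg _) (by positivity)
  have e3 : ∑ k, ∑ l, 21 * Real.exp (-HH p a v t) *
        (a * t * (if ‖v k‖ ≤ 2 ∧ ‖v l‖ ≤ 2 then ‖v k - v l‖ ^ 2 else 0) +
          (a * t) ^ (p - 1) * (if ‖v k‖ ≤ 2 ∧ ‖v l‖ ≤ 2 then 0 else ‖v k - v l‖ ^ p)) =
      21 * Real.exp (-HH p a v t) * (a * t * LL v + (a * t) ^ (p - 1) * HV p v) := by
    unfold LL HV
    simp only [← Finset.mul_sum, Finset.sum_add_distrib]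
  rw [e3] at e2
  have := mul_le_mul_of_nonneg_left e2 (show (0 : ℝ) ≤ 1 / (2 * m) by positivity)
  refine this.trans (le_of_eq ?_)
  field_simp

/-- a unit vector in the direction of the mean -/
lemma exists_dir (μ : ℂ) : ∃ e : ℂ, ‖e‖ = 1 ∧ (μ * (starRingEnd ℂ) e).re = ‖μ‖ := by
  by_cases h : μ = 0
  · exact ⟨1, norm_one, by simp [h]⟩
  · have hn : ‖μ‖ ≠ 0 := norm_ne_zero_iff.2 h
    refine ⟨μ / (‖μ‖ : ℂ), ?_, ?_⟩
    · rw [norm_div, Complex.norm_real, norm_norm, div_self hn]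
    · rw [map_div₀, Complex.conj_ofReal, ← mul_div_assoc, Complex.mul_conj,
        Complex.normSq_eq_norm_sq, ← Complex.ofReal_div, Complex.ofReal_re]
      field_simp

lemma dist_sq (v e : ℂ) (he : ‖e‖ = 1) :
    ‖v - e‖ ^ 2 = (‖v‖ - 1) ^ 2 + 2 * (‖v‖ - (v * (starRingEnd ℂ) e).re) := by
  have h1 : ‖v - e‖ ^ 2 = ‖v‖ ^ 2 + ‖e‖ ^ 2 - 2 * (v * (starRingEnd ℂ) e).re := by
    rw [← Complex.normSq_eq_norm_sq, ← Complex.normSq_eq_norm_sq, ← Complex.normSq_eq_norm_sq,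
      Complex.normSq_sub]
  rw [h1, he]
  ring

lemma dist_sq_le (x y e : ℂ) : ‖x - y‖ ^ 2 ≤ 2 * ‖x - e‖ ^ 2 + 2 * ‖y - e‖ ^ 2 := by
  have h : ‖x - y‖ ≤ ‖x - e‖ + ‖y - e‖ := by
    have := norm_sub_le (x - e) (y - e)
    rwa [sub_sub_sub_cancel_right] at this
  nlinarith [norm_nonneg (x - y), norm_nonneg (x - e), norm_nonneg (y - e),
    sq_nonneg (‖x - e‖ - ‖y - e‖)]

include hp hp2 ha0 ha1 hq hU in
lemma LL_le (hm : 0 < m) :
    LL v ≤ 4 * m ^ 2 / cc p * (1 - ‖(∑ j, v j) / (m : ℂ)‖) := by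
  have hm' : (0 : ℝ) < m := by exact_mod_cast hm
  have hc := cc_pos hp
  have hc2 := cc_le hp2
  obtain ⟨e, he1, he2⟩ := exists_dir ((∑ j, v j) / (m : ℂ))
  set A : Fin m → ℝ := fun k =>
    1 / cc p * (chi p ‖v k‖ + (‖v k‖ - (v k * (starRingEnd ℂ) e).re)) with hA
  have hre : ∀ k, (v k * (starRingEnd ℂ) e).re ≤ ‖v k‖ := by
    intro k
    refine (Complex.re_le_norm _).trans (le_of_eq ?_)
    rw [norm_mul, Complex.norm_conj, he1, mul_one]
  have hA0 : ∀ k, 0 ≤ A k := by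
    intro k
    have h1 := chi_nonneg hp (norm_nonneg (v k))
    have h2 := hre k
    rw [hA]
    simp only
    have : 0 ≤ chi p ‖v k‖ + (‖v k‖ - (v k * (starRingEnd ℂ) e).re) := by linarith
    positivity
  have hlight : ∀ k, ‖v k‖ ≤ 2 → ‖v k - e‖ ^ 2 ≤ A k := by
    intro k hk
    rw [dist_sq _ _ he1, hA]
    simp only
    have h3 := chi_light hp hp2 (r_ge ha0 ha1 (hq k)) hk
    have h2 := hre k
    rw [one_div, inv_mul_eq_div, le_div_iff₀ hc]
    nlinarith [mul_nonneg (show 0 ≤ 1 - 2 * cc p by linarith)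
      (sub_nonneg.2 h2)]
  have hterm : ∀ k l, (if ‖v k‖ ≤ 2 ∧ ‖v l‖ ≤ 2 then ‖v k - v l‖ ^ 2 else 0) ≤
      2 * A k + 2 * A l := by
    intro k l
    split_ifs with h
    · have h1 := dist_sq_le (v k) (v l) e
      have h2 := hlight k h.1
      have h3 := hlight l h.2
      linarith
    · have h2 := hA0 k
      have h3 := hA0 l
      linarith
  have hsum : LL v ≤ 4 * m * ∑ k, A k := by
    unfold LL
    refine (Finset.sum_le_sum fun k _ => Finset.sum_le_sum fun l _ => hterm k l).trans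
      (le_of_eq ?_)
    simp only [Finset.sum_add_distrib, ← Finset.mul_sum, Finset.sum_const, Finset.card_univ,
      Fintype.card_fin, nsmul_eq_mul]
    ring
  refine hsum.trans ?_
  have hAs : ∑ k, A k ≤ 1 / cc p * (m * (1 - ‖(∑ j, v j) / (m : ℂ)‖)) := by
    rw [hA]
    simp only
    rw [← Finset.mul_sum]
    refine mul_le_mul_of_nonneg_left ?_ (by positivity)
    have e1 : ∀ k, chi p ‖v k‖ + (‖v k‖ - (v k * (starRingEnd ℂ) e).re) =
        dd p ‖v k‖ + 1 - (v k * (starRingEnd ℂ) e).re := by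
      intro k; unfold chi; ring
    simp_rw [e1]
    rw [Finset.sum_sub_distrib, Finset.sum_add_distrib]
    simp only [Finset.sum_const, Finset.card_univ, Fintype.card_fin, nsmul_eq_mul, mul_one]
    have e2 : ∑ k, (v k * (starRingEnd ℂ) e).re = m * ‖(∑ j, v j) / (m : ℂ)‖ := by
      rw [← he2, ← Complex.re_sum, ← Finset.sum_mul]
      have : (∑ j, v j) / (m : ℂ) * (starRingEnd ℂ) e =
          ((1 / m : ℝ) : ℂ) * ((∑ j, v j) * (starRingEnd ℂ) e) := by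
        push_cast; ring
      rw [this, Complex.re_ofReal_mul]
      field_simp
    rw [e2]
    have := sum_dd_le hp v hU
    linarith
  have := mul_le_mul_of_nonneg_left hAs (show (0 : ℝ) ≤ 4 * m by positivity)
  refine this.trans (le_of_eq ?_)
  field_simp

lemma add_rpow_le {p x y : ℝ} (hp : 1 < p) (hp2 : p ≤ 2) (hx : 0 ≤ x) (hy : 0 ≤ y) :
    (x + y) ^ p ≤ 4 * (x ^ p + y ^ p) := by
  have h2 : (2 : ℝ) ^ p ≤ 4 := by
    have := Real.rpow_le_rpow_of_exponent_le (show (1 : ℝ) ≤ 2 by norm_num) hp2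
    refine this.trans (le_of_eq ?_)
    norm_num
  have hx' := Real.rpow_nonneg hx p
  have hy' := Real.rpow_nonneg hy p
  rcases le_total x y with h | h
  · have : (x + y) ^ p ≤ (2 * y) ^ p :=
      Real.rpow_le_rpow (by positivity) (by linarith) (by linarith)
    rw [Real.mul_rpow (by norm_num) hy] at this
    nlinarith
  · have : (x + y) ^ p ≤ (2 * x) ^ p :=
      Real.rpow_le_rpow (by positivity) (by linarith) (by linarith)
    rw [Real.mul_rpow (by norm_num) hx] at this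
    nlinarith

include hp hp2 hU in
lemma HV_le : HV p v ≤ 16 * m / cc p * ∑ k, chi p ‖v k‖ := by
  have hc := cc_pos hp
  set T : Fin m → ℝ := fun k => if 2 < ‖v k‖ then ‖v k‖ ^ p else 0 with hT
  have hT0 : ∀ k, 0 ≤ T k := by
    intro k
    rw [hT]; simp only
    split_ifs
    · exact Real.rpow_nonneg (norm_nonneg _) _
    · exact le_rfl
  have hTc : ∀ k, T k ≤ 1 / cc p * chi p ‖v k‖ := by
    intro k
    rw [hT]; simp only
    rw [one_div, inv_mul_eq_div, le_div_iff₀ hc]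
    split_ifs with h
    · have := chi_heavy hp hp2 h.le
      linarith
    · rw [zero_mul]; exact chi_nonneg hp (norm_nonneg _)
  have hr0 : ∀ k, 0 ≤ ‖v k‖ ^ p := fun k => Real.rpow_nonneg (norm_nonneg _) _
  have hterm : ∀ k l, (if ‖v k‖ ≤ 2 ∧ ‖v l‖ ≤ 2 then 0 else ‖v k - v l‖ ^ p) ≤
      4 * (T k * (1 + ‖v l‖ ^ p) + T l * (1 + ‖v k‖ ^ p)) := by
    intro k l
    have n1 : 0 ≤ T k * (1 + ‖v l‖ ^ p) := mul_nonneg (hT0 k) (by linarith [hr0 l])
    have n2 : 0 ≤ T l * (1 + ‖v k‖ ^ p) := mul_nonneg (hT0 l) (by linarith [hr0 k])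
    split_ifs with h
    · linarith
    · have h1 : ‖v k - v l‖ ^ p ≤ (‖v k‖ + ‖v l‖) ^ p :=
        Real.rpow_le_rpow (norm_nonneg _) (norm_sub_le _ _) (by linarith)
      have h2 := add_rpow_le hp hp2 (norm_nonneg (v k)) (norm_nonneg (v l))
      refine (h1.trans h2).trans ?_
      refine mul_le_mul_of_nonneg_left ?_ (by norm_num)
      rcases lt_or_ge 2 ‖v k‖ with h3 | h3
      · have : T k = ‖v k‖ ^ p := by rw [hT]; simp only [h3, if_true]
        rw [this]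
        have h4 : 1 ≤ ‖v k‖ ^ p := Real.one_le_rpow (by linarith) (by linarith)
        nlinarith [hr0 l, hr0 k]
      · have h5 : 2 < ‖v l‖ := by
          by_contra hc
          exact h ⟨h3, not_lt.1 hc⟩
        have : T l = ‖v l‖ ^ p := by rw [hT]; simp only [h5, if_true]
        rw [this]
        have h4 : 1 ≤ ‖v l‖ ^ p := Real.one_le_rpow (by linarith) (by linarith)
        nlinarith [hr0 l, hr0 k]
  have hsum : HV p v ≤ 8 * ((∑ k, T k) * (m + ∑ l, ‖v l‖ ^ p)) := by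
    unfold HV
    refine (Finset.sum_le_sum fun k _ => Finset.sum_le_sum fun l _ => hterm k l).trans
      (le_of_eq ?_)
    simp only [← Finset.mul_sum, Finset.sum_add_distrib]
    have e1 : ∑ i, T i * ∑ j, (1 + ‖v j‖ ^ p) = (∑ k, T k) * (m + ∑ l, ‖v l‖ ^ p) := by
      rw [← Finset.sum_mul, Finset.sum_add_distrib]
      simp
    have e2 : ∑ x, ∑ y, T y * (1 + ‖v x‖ ^ p) = (∑ k, T k) * (m + ∑ l, ‖v l‖ ^ p) := by
      rw [Finset.sum_comm]
      simp only [← Finset.mul_sum]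
      exact e1
    simp only [Finset.sum_add_distrib] at e1
    rw [e2, e1]
    ring
  refine hsum.trans ?_
  have h1 : ∑ k, T k ≤ 1 / cc p * ∑ k, chi p ‖v k‖ := by
    rw [Finset.mul_sum]
    exact Finset.sum_le_sum fun k _ => hTc k
  have h2 : 0 ≤ ∑ k, T k := Finset.sum_nonneg fun k _ => hT0 k
  have h3 : (∑ k, T k) * (m + ∑ l, ‖v l‖ ^ p) ≤ (∑ k, T k) * (2 * m) :=
    mul_le_mul_of_nonneg_left (by linarith) h2
  have h4 : (∑ k, T k) * (2 * m) ≤ (1 / cc p * ∑ k, chi p ‖v k‖) * (2 * m) :=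
    mul_le_mul_of_nonneg_right h1 (by positivity)
  have : 8 * ((1 / cc p * ∑ k, chi p ‖v k‖) * (2 * m)) = 16 * m / cc p * ∑ k, chi p ‖v k‖ := by
    field_simp
    ring
  linarith

end

end Pool.Agent.H981.Sen
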