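import Pool.Agent.H981.Sen.Chi

set_option autoImplicit false

/-!
# Pointwise inequalities for `v = 1 / (a - w)`, `|w| ≤ 1`
-/

namespace Pool.Agent.H981.Sen

/-- `|v| + a Re v - 1` -/
noncomputable def phi (a : ℝ) (v : ℂ) : ℝ := ‖v‖ + a * v.re - 1

/-- Green's function: `log |a + (1 - a²) v|` -/
noncomputable def gg (a : ℝ) (v : ℂ) : ℝ := Real.log ‖(a : ℂ) + ((1 - a ^ 2 : ℝ) : ℂ) * v‖

/-- `κ = c / (2 (1 - a²))` -/
noncomputable def kap (p a : ℝ) : ℝ := cc p / 2 / (1 - a ^ 2)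

/-- the exponent of the bound for `|1 - a t v|` -/
noncomputable def hh (p a : ℝ) (v : ℂ) (t : ℝ) : ℝ :=
  t * dd p ‖v‖ - cc p / 8 * (t * (1 - t)) * (chi p ‖v‖ + phi a v) - t / 2 * (kap p a * gg a v)

lemma le_sq' {x y : ℝ} (h : x ^ 2 ≤ y ^ 2) (hy : 0 ≤ y) : x ≤ y := by
  by_contra hc
  push Not at hc
  nlinarith

lemma q_sq (a : ℝ) (v : ℂ) : ‖1 - (a : ℂ) * v‖ ^ 2 = 1 - 2 * a * v.re + a ^ 2 * ‖v‖ ^ 2 := by
  rw [Complex.sq_norm, Complex.normSq_apply, Complex.sq_norm, Complex.normSq_apply]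
  simp
  ring

lemma Q_sq (a : ℝ) (v : ℂ) : ‖(a : ℂ) + ((1 - a ^ 2 : ℝ) : ℂ) * v‖ ^ 2 =
    1 + (1 - a ^ 2) * (‖v‖ ^ 2 - ‖1 - (a : ℂ) * v‖ ^ 2) := by
  rw [q_sq]
  rw [Complex.sq_norm, Complex.normSq_apply, Complex.sq_norm, Complex.normSq_apply,
    Complex.add_re, Complex.add_im, Complex.re_ofReal_mul, Complex.im_ofReal_mul,
    Complex.ofReal_re, Complex.ofReal_im]
  ring

section

variable {p a : ℝ} {v : ℂ} (hp : 1 < p) (hp2 : p ≤ 2) (ha0 : 0 < a) (ha1 : a < 1)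
  (hq : ‖1 - (a : ℂ) * v‖ ≤ ‖v‖)

include ha0 hq in
lemma r_ge' : 1 ≤ (1 + a) * ‖v‖ := by
  have h1 : ‖(1 : ℂ)‖ ≤ ‖1 - (a : ℂ) * v‖ + ‖(a : ℂ) * v‖ := by
    have := norm_add_le (1 - (a : ℂ) * v) ((a : ℂ) * v)
    rwa [sub_add_cancel] at this
  rw [norm_one, norm_mul, Complex.norm_real, Real.norm_eq_abs, abs_of_pos ha0] at h1
  linarith

include ha0 ha1 hq in
lemma r_ge : 1 / 2 ≤ ‖v‖ := by
  have h := r_ge' ha0 hq
  nlinarith [norm_nonneg v]

include ha0 in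
lemma q_ge : a * ‖v‖ - 1 ≤ ‖1 - (a : ℂ) * v‖ := by
  have h1 : ‖(a : ℂ) * v‖ ≤ ‖1 - (a : ℂ) * v‖ + ‖(1 : ℂ)‖ := by
    have := norm_sub_le (1 : ℂ) (1 - (a : ℂ) * v)
    rw [sub_sub_cancel] at this
    linarith
  rw [norm_one, norm_mul, Complex.norm_real, Real.norm_eq_abs, abs_of_pos ha0] at h1
  linarith

include hq in
lemma gl_ineq : 1 ≤ (1 - a ^ 2) * ‖v‖ ^ 2 + 2 * a * v.re := by
  have h := q_sq a v
  have h2 : ‖1 - (a : ℂ) * v‖ ^ 2 ≤ ‖v‖ ^ 2 := pow_le_pow_left₀ (norm_nonneg _) hq 2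
  nlinarith

include ha0 in
lemma ax_bounds : -(a * ‖v‖) ≤ a * v.re ∧ a * v.re ≤ a * ‖v‖ := by
  have h := abs_le.1 (Complex.abs_re_le_norm v)
  constructor
  · have := mul_le_mul_of_nonneg_left h.1 ha0.le
    linarith
  · exact mul_le_mul_of_nonneg_left h.2 ha0.le

include ha0 hq in
lemma phi_nonneg : 0 ≤ phi a v := by
  have h1 := gl_ineq hq
  have h2 := r_ge' ha0 hq
  have h3 := (ax_bounds (v := v) ha0).1
  unfold phi
  set r := ‖v‖ with hr
  rcases le_or_gt ((1 - a) * r) 1 with h | h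
  · nlinarith [mul_nonneg (sub_nonneg.2 h2) (sub_nonneg.2 h)]
  · nlinarith

include ha0 ha1 hq in
lemma phi_mid (h : |‖v‖ - 1| < a / 4) : 3 / 16 * a ^ 2 ≤ phi a v := by
  have h1 := gl_ineq hq
  unfold phi
  set r := ‖v‖ with hr
  have h4 := abs_lt.1 h
  have h5 : a / 2 ≤ (1 + a) * r - 1 := by nlinarith
  have h6 : 3 / 4 * a ≤ 1 - (1 - a) * r := by nlinarith
  have h7 : a / 2 * (3 / 4 * a) ≤ ((1 + a) * r - 1) * (1 - (1 - a) * r) :=
    mul_le_mul h5 h6 (by positivity) (by linarith)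
  nlinarith

include hp hp2 ha0 ha1 hq in
lemma X_ge : cc p / 4 * a ^ 2 ≤ chi p ‖v‖ + phi a v := by
  have hc := cc_pos hp
  have hc2 := cc_le hp2
  have hr := r_ge ha0 ha1 hq
  have hφ := phi_nonneg ha0 hq
  have hχ := chi_nonneg hp (norm_nonneg v)
  have ha2 : a ^ 2 ≤ 1 := by nlinarith
  rcases lt_or_ge (|‖v‖ - 1|) (a / 4) with h | h
  · have := phi_mid ha0 ha1 hq h
    nlinarith [sq_nonneg a]
  · rcases le_or_gt ‖v‖ 2 with h2 | h2
    · have h3 := chi_light hp hp2 hr h2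
      have h4 : (a / 4) ^ 2 ≤ (‖v‖ - 1) ^ 2 := by
        rw [← sq_abs (‖v‖ - 1)]
        exact pow_le_pow_left₀ (by positivity) h 2
      nlinarith [mul_le_mul_of_nonneg_left h4 hc.le, mul_nonneg hc.le (sq_nonneg a)]
    · have h3 := chi_heavy hp hp2 h2.le
      have h4 : 1 ≤ ‖v‖ ^ p := Real.one_le_rpow (by linarith) (by linarith)
      nlinarith [mul_le_mul_of_nonneg_left h4 hc.le, mul_le_mul_of_nonneg_left ha2 hc.le]

include ha0 ha1 hq in
lemma Q_ge : 1 ≤ ‖(a : ℂ) + ((1 - a ^ 2 : ℝ) : ℂ) * v‖ := by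
  have h := Q_sq a v
  have hb : 0 < 1 - a ^ 2 := by nlinarith
  have h2 : ‖1 - (a : ℂ) * v‖ ^ 2 ≤ ‖v‖ ^ 2 := pow_le_pow_left₀ (norm_nonneg _) hq 2
  have h3 : 1 ≤ ‖(a : ℂ) + ((1 - a ^ 2 : ℝ) : ℂ) * v‖ ^ 2 := by
    rw [h]; nlinarith
  by_contra hc
  push Not at hc
  nlinarith [norm_nonneg ((a : ℂ) + ((1 - a ^ 2 : ℝ) : ℂ) * v)]

include ha0 ha1 hq in
lemma gg_nonneg : 0 ≤ gg a v := Real.log_nonneg (Q_ge ha0 ha1 hq)

include ha0 ha1 hq in
lemma gg_le_sq : gg a v ≤ (1 - a ^ 2) / 2 * (‖v‖ ^ 2 - ‖1 - (a : ℂ) * v‖ ^ 2) := by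
  have h1 := Q_ge ha0 ha1 hq
  have h2 := Q_sq a v
  unfold gg
  set Q := ‖(a : ℂ) + ((1 - a ^ 2 : ℝ) : ℂ) * v‖ with hQ
  have hQ0 : 0 < Q := by linarith
  have h3 : Real.log (Q ^ 2) ≤ Q ^ 2 - 1 := Real.log_le_sub_one_of_pos (by positivity)
  rw [Real.log_pow] at h3
  push_cast at h3
  rw [h2] at h3
  linarith

include ha0 ha1 hq in
lemma gg_le_r : gg a v ≤ ‖v‖ := by
  have h1 := Q_ge ha0 ha1 hq
  have hb : 0 < 1 - a ^ 2 := by nlinarith
  have hb1 : 1 - a ^ 2 ≤ 1 := by nlinarith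
  have h2 : ‖(a : ℂ) + ((1 - a ^ 2 : ℝ) : ℂ) * v‖ ≤ a + (1 - a ^ 2) * ‖v‖ := by
    refine (norm_add_le _ _).trans (le_of_eq ?_)
    rw [norm_mul, Complex.norm_real, Complex.norm_real, Real.norm_eq_abs, Real.norm_eq_abs,
      abs_of_pos ha0, abs_of_pos hb]
  unfold gg
  have h3 := Real.log_le_sub_one_of_pos (show 0 < ‖(a : ℂ) + ((1 - a ^ 2 : ℝ) : ℂ) * v‖ by linarith)
  nlinarith [mul_le_mul_of_nonneg_right hb1 (norm_nonneg v)]

include hp hp2 ha0 ha1 hq in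
lemma gg_le_X : cc p * gg a v ≤ chi p ‖v‖ + phi a v := by
  have hc := cc_pos hp
  have hc2 := cc_le hp2
  have hr := r_ge ha0 ha1 hq
  have hφ := phi_nonneg ha0 hq
  have hχ := chi_nonneg hp (norm_nonneg v)
  rcases le_or_gt ‖v‖ 2 with h2 | h2
  · have h3 := chi_light hp hp2 hr h2
    have h4 := gg_le_sq ha0 ha1 hq
    have hq2 : ‖1 - (a : ℂ) * v‖ ^ 2 ≤ ‖v‖ ^ 2 := pow_le_pow_left₀ (norm_nonneg _) hq 2
    have h5 : gg a v ≤ phi a v + (‖v‖ - 1) ^ 2 / 2 := by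
      refine h4.trans ?_
      have h6 : (1 - a ^ 2) / 2 * (‖v‖ ^ 2 - ‖1 - (a : ℂ) * v‖ ^ 2) ≤
          1 / 2 * (‖v‖ ^ 2 - ‖1 - (a : ℂ) * v‖ ^ 2) :=
        mul_le_mul_of_nonneg_right (by nlinarith) (by linarith)
      refine h6.trans ?_
      rw [q_sq]
      unfold phi
      nlinarith [mul_nonneg (sq_nonneg a) (sq_nonneg ‖v‖)]
    nlinarith [mul_le_mul_of_nonneg_left h5 hc.le]
  · have h3 := chi_heavy hp hp2 h2.le
    have h4 := gg_le_r ha0 ha1 hq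
    have h5 : ‖v‖ ≤ ‖v‖ ^ p := Real.self_le_rpow_of_one_le (by linarith) hp.le
    nlinarith [mul_le_mul_of_nonneg_left (h4.trans h5) hc.le]

include hp hp2 ha0 ha1 hq in
lemma kap_gg_le : kap p a * gg a v ≤ chi p ‖v‖ + (‖v‖ - ‖1 - (a : ℂ) * v‖) := by
  have hc := cc_pos hp
  have hc2 := cc_le hp2
  have hr := r_ge ha0 ha1 hq
  have hχ := chi_nonneg hp (norm_nonneg v)
  have hb : 0 < 1 - a ^ 2 := by nlinarith
  have hg := gg_nonneg ha0 ha1 hq
  have hk : kap p a * (1 - a ^ 2) = cc p / 2 := by unfold kap; field_simp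
  have hk0 : 0 < kap p a := by unfold kap; positivity
  rcases le_or_gt ‖v‖ 2 with h2 | h2
  · have h4 := gg_le_sq ha0 ha1 hq
    have h5 : gg a v ≤ (1 - a ^ 2) * (2 * (‖v‖ - ‖1 - (a : ℂ) * v‖)) := by
      refine h4.trans ?_
      have : ‖v‖ ^ 2 - ‖1 - (a : ℂ) * v‖ ^ 2 ≤ 4 * (‖v‖ - ‖1 - (a : ℂ) * v‖) := by
        nlinarith [norm_nonneg (1 - (a : ℂ) * v)]
      nlinarith [mul_le_mul_of_nonneg_left this hb.le]
    have h6 := mul_le_mul_of_nonneg_left h5 hk0.le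
    rw [← mul_assoc, hk] at h6
    nlinarith
  · have h3 := chi_heavy hp hp2 h2.le
    have h5 : ‖v‖ ≤ ‖v‖ ^ p := Real.self_le_rpow_of_one_le (by linarith) hp.le
    have hQ1 := Q_ge ha0 ha1 hq
    have hQ2 := Q_sq a v
    have hqg := q_ge (v := v) ha0
    set Q := ‖(a : ℂ) + ((1 - a ^ 2 : ℝ) : ℂ) * v‖ with hQ
    set q := ‖1 - (a : ℂ) * v‖ with hqd
    set r := ‖v‖ with hrd
    set b := 1 - a ^ 2 with hbd
    have hab : 1 - a ≤ b := by rw [hbd]; nlinarith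
    have h6 : Q ≤ 1 + 2 * b * r := by
      have h7 : (r - q) * (r + q) ≤ (b * r + 1) * (2 * r) := by
        have e1 : r - q ≤ b * r + 1 := by nlinarith
        have e2 : r + q ≤ 2 * r := by linarith
        exact mul_le_mul e1 e2 (by nlinarith [norm_nonneg (1 - (a : ℂ) * v)]) (by positivity)
      have h8 : Q ^ 2 ≤ (1 + 2 * b * r) ^ 2 := by
        rw [hQ2]
        have : b * (r ^ 2 - q ^ 2) ≤ b * ((b * r + 1) * (2 * r)) :=
          mul_le_mul_of_nonneg_left (by nlinarith) hb.le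
        nlinarith [mul_nonneg (mul_nonneg hb.le hb.le) (mul_nonneg (norm_nonneg v) (norm_nonneg v)),
          mul_nonneg hb.le (norm_nonneg v)]
      exact le_sq' h8 (by positivity)
    have h9 : gg a v ≤ 2 * b * r := by
      unfold gg
      rw [← hQ]
      have := Real.log_le_sub_one_of_pos (show 0 < Q by linarith)
      linarith
    have h10 := mul_le_mul_of_nonneg_left h9 hk0.le
    have h11 : kap p a * (2 * b * r) = cc p * r := by
      rw [show kap p a * (2 * b * r) = (kap p a * b) * (2 * r) by ring, hk]; ring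
    rw [h11] at h10
    nlinarith [mul_le_mul_of_nonneg_left h5 hc.le]

lemma norm_seg {t : ℝ} (ht0 : 0 ≤ t) (ht1 : t ≤ 1) (a : ℝ) (v : ℂ) :
    ‖1 - (a : ℂ) * t * v‖ ≤ 1 + t * (‖1 - (a : ℂ) * v‖ - 1) := by
  have e : 1 - (a : ℂ) * t * v = ((1 - t : ℝ) : ℂ) + (t : ℂ) * (1 - (a : ℂ) * v) := by
    push_cast; ring
  rw [e]
  refine (norm_add_le _ _).trans (le_of_eq ?_)
  rw [norm_mul, Complex.norm_real, Complex.norm_real, Real.norm_eq_abs, Real.norm_eq_abs,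
    abs_of_nonneg ht0, abs_of_nonneg (sub_nonneg.2 ht1)]
  ring

include hp hp2 ha0 ha1 hq in
lemma bound_g {t : ℝ} (ht0 : 0 ≤ t) (ht1 : t ≤ 1) :
    ‖1 - (a : ℂ) * t * v‖ ≤ Real.exp (t * (dd p ‖v‖ - kap p a * gg a v)) := by
  refine (norm_seg ht0 ht1 a v).trans ?_
  have h := kap_gg_le hp hp2 ha0 ha1 hq
  have h1 : ‖1 - (a : ℂ) * v‖ - 1 ≤ dd p ‖v‖ - kap p a * gg a v := by
    unfold chi at h
    linarith
  have h2 := Real.add_one_le_exp (t * (‖1 - (a : ℂ) * v‖ - 1))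
  have h3 : Real.exp (t * (‖1 - (a : ℂ) * v‖ - 1)) ≤
      Real.exp (t * (dd p ‖v‖ - kap p a * gg a v)) :=
    Real.exp_le_exp.2 (mul_le_mul_of_nonneg_left h1 ht0)
  linarith

include hp hp2 ha0 ha1 hq in
lemma bound_X {t : ℝ} (ht0 : 0 ≤ t) (ht1 : t ≤ 1) :
    ‖1 - (a : ℂ) * t * v‖ ≤
      Real.exp (t * dd p ‖v‖ - cc p / 4 * (t * (1 - t)) * (chi p ‖v‖ + phi a v)) := by
  have hc := cc_pos hp
  have hc2 := cc_le hp2
  have hr := r_ge ha0 ha1 hq
  have hφ := phi_nonneg ha0 hq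
  have hχ := chi_nonneg hp (norm_nonneg v)
  have htt : 0 ≤ t * (1 - t) := mul_nonneg ht0 (by linarith)
  have htt1 : t * (1 - t) ≤ t := by nlinarith
  rcases le_or_gt ‖v‖ 2 with h2 | h2
  · -- light
    set r := ‖v‖ with hrd
    set Y := t * (1 - t) * phi a v with hY
    have hY0 : 0 ≤ Y := mul_nonneg htt hφ
    set X := 1 - t + t * r with hX
    have hX0 : 0 < X := by rw [hX]; nlinarith
    have hX2 : X ≤ 2 := by rw [hX]; nlinarith
    have e1 : ‖1 - (a : ℂ) * t * v‖ ^ 2 ≤ X ^ 2 - 2 * Y := by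
      have e2 : ‖1 - (a : ℂ) * t * v‖ ^ 2 = (1 - t) ^ 2 + 2 * (t * (1 - t)) * (1 - a * v.re) +
          t ^ 2 * ‖1 - (a : ℂ) * v‖ ^ 2 := by
        rw [q_sq]
        have := q_sq (a * t) v
        push_cast at this
        rw [this]
        ring
      have e3 : 1 - a * v.re = r - phi a v := by unfold phi; rw [← hrd]; ring
      have e4 : ‖1 - (a : ℂ) * v‖ ^ 2 ≤ r ^ 2 := pow_le_pow_left₀ (norm_nonneg _) hq 2
      rw [e2, e3, hX, hY]
      nlinarith [mul_le_mul_of_nonneg_left e4 (sq_nonneg t)]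
    have e5 : X ^ 2 - 2 * Y ≤ X ^ 2 * Real.exp (-(Y / 2)) := by
      have h3 := Real.add_one_le_exp (-(Y / 2))
      have h4 : X ^ 2 * (1 - Y / 2) ≤ X ^ 2 * Real.exp (-(Y / 2)) :=
        mul_le_mul_of_nonneg_left (by linarith) (sq_nonneg _)
      have h5 : X ^ 2 ≤ 4 := by nlinarith
      nlinarith [mul_le_mul_of_nonneg_right h5 hY0]
    have e6 : X ≤ Real.exp (t * (r - 1)) := by
      have := Real.add_one_le_exp (t * (r - 1))
      rw [hX]; linarith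
    have e7 : ‖1 - (a : ℂ) * t * v‖ ^ 2 ≤ (Real.exp (t * (r - 1) - Y / 4)) ^ 2 := by
      refine (e1.trans e5).trans ?_
      have h3 : X ^ 2 ≤ (Real.exp (t * (r - 1))) ^ 2 := pow_le_pow_left₀ hX0.le e6 2
      refine (mul_le_mul_of_nonneg_right h3 (Real.exp_pos _).le).trans (le_of_eq ?_)
      rw [← Real.exp_nat_mul, ← Real.exp_nat_mul, ← Real.exp_add]
      congr 1
      push_cast
      ring
    have e8 := le_sq' e7 (Real.exp_pos _).le
    refine e8.trans (Real.exp_le_exp.2 ?_)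
    have e9 : t * (r - 1) = t * dd p r - t * chi p r := by unfold chi; ring
    rw [e9]
    have e10 : cc p / 4 * (t * (1 - t)) * (chi p r + phi a v) ≤
        1 / 4 * (t * (1 - t)) * (chi p r + phi a v) :=
      mul_le_mul_of_nonneg_right (mul_le_mul_of_nonneg_right (by linarith) htt) (by linarith)
    have e11 : t * (1 - t) * chi p r ≤ t * chi p r := mul_le_mul_of_nonneg_right htt1 hχ
    have e12 : 0 ≤ t * chi p r := mul_nonneg ht0 hχ
    have e13 : Y / 4 = 1 / 4 * (t * (1 - t)) * phi a v := by rw [hY]; ring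
    rw [e13]
    nlinarith
  · -- heavy
    have h3 := chi_heavy hp hp2 h2.le
    have h5 : ‖v‖ ≤ ‖v‖ ^ p := Real.self_le_rpow_of_one_le (by linarith) hp.le
    have h6 : phi a v ≤ 2 * ‖v‖ := by
      unfold phi
      have := (ax_bounds (v := v) ha0).2
      nlinarith [norm_nonneg v]
    refine (norm_seg ht0 ht1 a v).trans ?_
    have h7 := Real.add_one_le_exp (t * (‖v‖ - 1))
    have h8 : t * (‖1 - (a : ℂ) * v‖ - 1) ≤ t * (‖v‖ - 1) :=
      mul_le_mul_of_nonneg_left (by linarith) ht0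
    have h9 : Real.exp (t * (‖v‖ - 1)) ≤
        Real.exp (t * dd p ‖v‖ - cc p / 4 * (t * (1 - t)) * (chi p ‖v‖ + phi a v)) := by
      refine Real.exp_le_exp.2 ?_
      have e9 : t * (‖v‖ - 1) = t * dd p ‖v‖ - t * chi p ‖v‖ := by unfold chi; ring
      rw [e9]
      have e10 : cc p / 4 * (chi p ‖v‖ + phi a v) ≤ chi p ‖v‖ := by
        have : cc p * phi a v ≤ 2 * chi p ‖v‖ := by
          have := mul_le_mul_of_nonneg_left (h6.trans (by linarith : 2 * ‖v‖ ≤ 2 * ‖v‖ ^ p)) hc.le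
          linarith
        nlinarith
      have e11 : cc p / 4 * (t * (1 - t)) * (chi p ‖v‖ + phi a v) ≤ t * chi p ‖v‖ := by
        have e12 : cc p / 4 * (t * (1 - t)) * (chi p ‖v‖ + phi a v) =
            (t * (1 - t)) * (cc p / 4 * (chi p ‖v‖ + phi a v)) := by ring
        rw [e12]
        exact mul_le_mul htt1 e10 (by positivity) ht0
      linarith
    linarith

include hp hp2 ha0 ha1 hq in
lemma bound_hh {t : ℝ} (ht0 : 0 ≤ t) (ht1 : t ≤ 1) :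
    ‖1 - (a : ℂ) * t * v‖ ≤ Real.exp (hh p a v t) := by
  have h1 := bound_g hp hp2 ha0 ha1 hq ht0 ht1
  have h2 := bound_X hp hp2 ha0 ha1 hq ht0 ht1
  refine le_sq' ?_ (Real.exp_pos _).le
  rw [sq]
  refine (mul_le_mul h1 h2 (norm_nonneg _) (Real.exp_pos _).le).trans (le_of_eq ?_)
  rw [← Real.exp_nat_mul, ← Real.exp_add]
  congr 1
  unfold hh
  push_cast
  ring

include hp hp2 ha0 ha1 hq in
lemma hh_ge {t : ℝ} (ht0 : 0 ≤ t) (ht1 : t ≤ 1) : -(3 / 2) ≤ hh p a v t := by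
  have hc := cc_pos hp
  have hc2 := cc_le hp2
  have hr := r_ge ha0 ha1 hq
  have hφ := phi_nonneg ha0 hq
  have hχ := chi_nonneg hp (norm_nonneg v)
  have hk := kap_gg_le hp hp2 ha0 ha1 hq
  have hD := dd_ge hp (norm_nonneg v)
  have hrp := r_le hp (norm_nonneg v)
  rw [rpow_eq_dd hp] at hrp
  have h6 : phi a v ≤ 2 * ‖v‖ := by
    unfold phi
    have := (ax_bounds (v := v) ha0).2
    nlinarith [norm_nonneg v]
  have htt : 0 ≤ t * (1 - t) := mul_nonneg ht0 (by linarith)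
  have htt1 : t * (1 - t) ≤ t := by nlinarith
  set D := dd p ‖v‖ with hDd
  set r := ‖v‖ with hrd
  have e1 : cc p / 8 * (t * (1 - t)) * (chi p r + phi a v) ≤
      t * (1 / 256 * (chi p r + 2 * r)) := by
    have : cc p / 8 * (t * (1 - t)) * (chi p r + phi a v) =
        (t * (1 - t)) * (cc p / 8 * (chi p r + phi a v)) := by ring
    rw [this]
    refine mul_le_mul htt1 ?_ (by positivity) ht0
    exact mul_le_mul (by linarith) (by linarith) (by linarith) (by norm_num)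
  have e2 : t / 2 * (kap p a * gg a v) ≤ t * (1 / 2 * (chi p r + r)) := by
    have : t / 2 * (kap p a * gg a v) = t * (1 / 2 * (kap p a * gg a v)) := by ring
    rw [this]
    refine mul_le_mul_of_nonneg_left ?_ ht0
    linarith [norm_nonneg (1 - (a : ℂ) * v)]
  have e3 : chi p r = D - r + 1 := by unfold chi; rw [hDd]; ring
  unfold hh
  rw [← hDd]
  rw [e3] at e1 e2
  rw [e3]
  have e4 : -(3 / 2) ≤ t * (D - 1 / 256 * ((D - r + 1) + 2 * r) - 1 / 2 * ((D - r + 1) + r)) := by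
    have e5 : -(3 / 2) ≤ D - 1 / 256 * ((D - r + 1) + 2 * r) - 1 / 2 * ((D - r + 1) + r) := by
      have hpD : p * D ≤ 2 * (D + 1) := by nlinarith
      nlinarith
    rcases le_or_gt 0 (D - 1 / 256 * ((D - r + 1) + 2 * r) - 1 / 2 * ((D - r + 1) + r)) with h | h
    · have := mul_nonneg ht0 h
      linarith
    · nlinarith
  linarith

end

end Pool.Agent.H981.Sen
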