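import Pool.Agent.H981.Sen.Intg

set_option autoImplicit false

/-!
# The star test: lower bounds for Green's function and for the real part of the sum
-/

open Polynomial MeasureTheory

namespace Pool.Agent.H981.Sen

open Pool.Agent.H565.Pm

/-- star test -/
lemma star_raw {m : ℕ} {a : ℝ} (ha0 : 0 ≤ a) (ha1 : a < 1) (z w : Fin m → ℂ)
    (hz : ∀ j, ‖z j‖ ≤ 1)
    (hw : ∀ x : ℂ, (derivative (P a z)).eval x = (m + 1 : ℂ) * ∏ k, (x - w k))
    (hne : ∀ k, w k ≠ a) (u : Fin m → ℂ) (hu : ∀ k, u k = ((a : ℂ) - w k)⁻¹) :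
    1 ≤ ∫ t in (0:ℝ)..1, ∏ k, ‖(a : ℂ) + ((t * (1 - a ^ 2) : ℝ) : ℂ) * u k‖ := by
  have hD : 0 < ∏ k, ‖(a : ℂ) - w k‖ :=
    Finset.prod_pos fun k _ => norm_pos_iff.2 (sub_ne_zero.2 (hne k).symm)
  have hm1 : ‖(m + 1 : ℂ)‖ = (m + 1 : ℝ) := by
    have : (m + 1 : ℂ) = ((m + 1 : ℝ) : ℂ) := by push_cast; rfl
    rw [this, Complex.norm_real, Real.norm_eq_abs, abs_of_pos (by positivity)]
  have e1 : (m + 1 : ℝ) * ∏ k, ‖(a : ℂ) - w k‖ = ∏ j, ‖(a : ℂ) - z j‖ := by
    rw [← norm_prod Finset.univ (fun j => (a : ℂ) - z j), ← dP_at, hw, norm_mul, norm_prod, hm1]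
  have e2 : ∏ j, ‖(a : ℂ) - z j‖ ≤ ∏ j, ‖1 - (a : ℂ) * z j‖ :=
    Finset.prod_le_prod (fun _ _ => norm_nonneg _) fun j _ => norm_cmp ha0 ha1.le (hz j)
  have e3 : ∏ j, ‖1 - (a : ℂ) * z j‖ ≤ (m + 1 : ℝ) * ((∏ k, ‖(a : ℂ) - w k‖) *
      ∫ t in (0:ℝ)..1, ∏ k, ‖(a : ℂ) + ((t * (1 - a ^ 2) : ℝ) : ℂ) * u k‖) := by
    rw [← norm_prod, ident ha0 z w hw ha1, norm_mul, hm1]
    refine mul_le_mul_of_nonneg_left ?_ (by positivity)
    refine (intervalIntegral.norm_integral_le_integral_norm zero_le_one).trans ?_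
    rw [← intervalIntegral.integral_const_mul]
    refine intervalIntegral.integral_mono_on zero_le_one ?_ ?_ ?_
    · apply Continuous.intervalIntegrable
      fun_prop
    · apply Continuous.intervalIntegrable
      fun_prop
    · intro t _
      rw [norm_prod, ← Finset.prod_mul_distrib]
      refine le_of_eq (Finset.prod_congr rfl fun k _ => ?_)
      rw [← norm_mul, hu k]
      congr 1
      have : (a : ℂ) - w k ≠ 0 := sub_ne_zero.2 (hne k).symm
      push_cast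
      field_simp
  rw [← e1] at e2
  have h2 := e2.trans e3
  have h3 := le_of_mul_le_mul_left h2 (by positivity)
  by_contra hc
  rw [not_le] at hc
  have := mul_lt_mul_of_pos_left hc hD
  linarith

/-- `1 - (n+1) aⁿ + n aⁿ⁺¹ ≥ 0` -/
lemma geo_aux {a : ℝ} (ha0 : 0 ≤ a) (n : ℕ) :
    0 ≤ 1 - (n + 2 : ℝ) * a ^ (n + 1) + (n + 1 : ℝ) * a ^ (n + 2) := by
  induction n with
  | zero => simp; nlinarith [sq_nonneg (1 - a)]
  | succ n ih =>
    have e : 1 - (((n + 1 : ℕ) : ℝ) + 2) * a ^ (n + 1 + 1) + (((n + 1 : ℕ) : ℝ) + 1) * a ^ (n + 1 + 2)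
        = (1 - (n + 2 : ℝ) * a ^ (n + 1) + (n + 1 : ℝ) * a ^ (n + 2)) +
          (n + 2 : ℝ) * (a ^ (n + 1) * (1 - a) ^ 2) := by
      push_cast; ring
    rw [e]
    have : 0 ≤ (n + 2 : ℝ) * (a ^ (n + 1) * (1 - a) ^ 2) := by positivity
    linarith

lemma geo_sum {a : ℝ} (ha0 : 0 ≤ a) (n : ℕ) :
    ∑ i ∈ Finset.range (n + 1), a ^ i ≤ 1 + n * (1 + a ^ (n + 1)) / 2 := by
  induction n with
  | zero => simp
  | succ n ih =>
    rw [Finset.sum_range_succ]
    have h := geo_aux ha0 n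
    push_cast
    nlinarith

lemma geo_le {a : ℝ} (ha0 : 0 ≤ a) (m : ℕ) :
    (∑ i ∈ Finset.range (m + 1), a ^ i) * (1 + m * (1 - a) / 2) ≤ m + 1 := by
  have h1 := geo_sum ha0 m
  have h2 : (∑ i ∈ Finset.range (m + 1), a ^ i) * (1 - a) = 1 - a ^ (m + 1) := by
    have := geom_sum_mul a (m + 1)
    linarith
  have : (∑ i ∈ Finset.range (m + 1), a ^ i) * (1 + m * (1 - a) / 2) =
      (∑ i ∈ Finset.range (m + 1), a ^ i) +
        m / 2 * ((∑ i ∈ Finset.range (m + 1), a ^ i) * (1 - a)) := by ring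
  rw [this, h2]
  nlinarith

lemma int_lin {a : ℝ} (ha1 : a < 1) (m : ℕ) :
    ∫ t in (0:ℝ)..1, (a + (1 - a) * t) ^ m =
      (∑ i ∈ Finset.range (m + 1), a ^ i) / (m + 1) := by
  have h1a : (1 - a) ≠ 0 := by linarith
  have hm1 : ((m : ℝ) + 1) ≠ 0 := by positivity
  have hd : ∀ t ∈ Set.uIcc (0:ℝ) 1, HasDerivAt
      (fun t : ℝ => (a + (1 - a) * t) ^ (m + 1) / ((m + 1) * (1 - a)))
      ((a + (1 - a) * t) ^ m) t := by
    intro t _
    have h0 := ((((hasDerivAt_id t).const_mul (1 - a)).const_add a).fun_pow (m + 1)).div_const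
      ((m + 1) * (1 - a))
    simp only [id, Nat.add_sub_cancel, mul_one] at h0
    refine h0.congr_deriv ?_
    push_cast
    field_simp
  have hi : IntervalIntegrable (fun t : ℝ => (a + (1 - a) * t) ^ m) volume 0 1 := by
    apply Continuous.intervalIntegrable; fun_prop
  rw [intervalIntegral.integral_eq_sub_of_hasDerivAt hd hi]
  have h2 : (∑ i ∈ Finset.range (m + 1), a ^ i) * (1 - a) = 1 - a ^ (m + 1) := by
    have := geom_sum_mul a (m + 1)
    linarith
  have h3 : a + (1 - a) * 1 = 1 := by ring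
  rw [h3, mul_zero, add_zero, one_pow, ← sub_div, ← h2]
  field_simp

section

variable {m : ℕ} {p a : ℝ} {v : Fin m → ℂ} (hp : 1 < p) (ha0 : 0 < a) (ha1 : a < 1)
  (hq : ∀ k, ‖1 - (a : ℂ) * v k‖ ≤ ‖v k‖)
  (hst : 1 ≤ ∫ t in (0:ℝ)..1, ∏ k, ‖(a : ℂ) + ((t * (1 - a ^ 2) : ℝ) : ℂ) * v k‖)

include ha0 ha1 hq hst in
/-- lower bound for the sum of Green's functions -/
lemma GG_ge : Real.log (1 + m * (1 - a) / 2) ≤ GG a v := by
  have hpos : 0 < 1 + m * (1 - a) / 2 := by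
    have : 0 ≤ (m : ℝ) * (1 - a) / 2 := by
      apply div_nonneg (mul_nonneg (Nat.cast_nonneg m) (by linarith)) (by norm_num)
    linarith
  rw [Real.log_le_iff_le_exp hpos]
  have hpt : ∀ t ∈ Set.Icc (0:ℝ) 1, ∏ k, ‖(a : ℂ) + ((t * (1 - a ^ 2) : ℝ) : ℂ) * v k‖ ≤
      Real.exp (GG a v) * (a + (1 - a) * t) ^ m := by
    intro t ht
    have ht0 := ht.1
    have ht1 := ht.2
    have e1 : Real.exp (GG a v) * (a + (1 - a) * t) ^ m =
        ∏ k, (‖(a : ℂ) + ((1 - a ^ 2 : ℝ) : ℂ) * v k‖ * (a + (1 - a) * t)) := by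
      rw [Finset.prod_mul_distrib, Finset.prod_const, Finset.card_univ, Fintype.card_fin]
      congr 1
      unfold GG gg
      rw [Real.exp_sum]
      refine Finset.prod_congr rfl fun k _ => ?_
      rw [Real.exp_log]
      exact lt_of_lt_of_le one_pos (Q_ge ha0 ha1 (hq k))
    rw [e1]
    refine Finset.prod_le_prod (fun _ _ => norm_nonneg _) fun k _ => ?_
    have hQ := Q_ge ha0 ha1 (hq k)
    have e2 : (a : ℂ) + ((t * (1 - a ^ 2) : ℝ) : ℂ) * v k =
        (((1 - t) * a : ℝ) : ℂ) + (t : ℂ) * ((a : ℂ) + ((1 - a ^ 2 : ℝ) : ℂ) * v k) := by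
      push_cast; ring
    rw [e2]
    refine (norm_add_le _ _).trans ?_
    rw [norm_mul, Complex.norm_real, Complex.norm_real, Real.norm_eq_abs, Real.norm_eq_abs,
      abs_of_nonneg ht0, abs_of_nonneg (mul_nonneg (sub_nonneg.2 ht1) ha0.le)]
    set Q := ‖(a : ℂ) + ((1 - a ^ 2 : ℝ) : ℂ) * v k‖
    have e3 : 0 ≤ (1 - t) * a * (Q - 1) :=
      mul_nonneg (mul_nonneg (sub_nonneg.2 ht1) ha0.le) (by linarith)
    nlinarith
  have h1 : (1 : ℝ) ≤ Real.exp (GG a v) * ((∑ i ∈ Finset.range (m + 1), a ^ i) / (m + 1)) := by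
    rw [← int_lin ha1 m, ← intervalIntegral.integral_const_mul]
    refine hst.trans (intervalIntegral.integral_mono_on zero_le_one ?_ ?_ hpt)
    · apply Continuous.intervalIntegrable; fun_prop
    · apply Continuous.intervalIntegrable; fun_prop
  have h2 := geo_le ha0.le m
  have hm1 : (0 : ℝ) < m + 1 := by positivity
  have hE := Real.exp_pos (GG a v)
  rw [mul_div_assoc', le_div_iff₀ hm1, one_mul] at h1
  have h3 := mul_le_mul_of_nonneg_left h2 hE.le
  have h4 := mul_le_mul_of_nonneg_right h1 hpos.le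
  -- (m+1) (1+..) ≤ E Σ (1+..) ≤ E (m+1)
  have h5 : (m + 1 : ℝ) * (1 + m * (1 - a) / 2) ≤ (m + 1) * Real.exp (GG a v) := by nlinarith
  exact le_of_mul_le_mul_left h5 hm1

lemma re_ge_arith {m b a X : ℝ} (hm : 2 ≤ m) (hb0 : 0 < b) (hb2 : b ≤ 2 * (1 - a)) (ha0 : 0 < a)
    (ha1 : a < 1) (hbm3 : b * m ^ 3 ≤ 1 / 8) (h3 : 0 ≤ -m + b * m ^ 3 + 8 * b * m ^ 2 + a * X) :
    m - 18 * (1 - a) * m ^ 3 ≤ X := by
  have h4 : b * m ^ 2 ≤ b * m ^ 3 := by
    have h0 : m ^ 2 ≤ m ^ 3 := by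
      have : m ^ 3 = m ^ 2 * m := by ring
      rw [this]
      have h1 : 0 ≤ m ^ 2 := sq_nonneg m
      have := mul_le_mul_of_nonneg_left (show (1 : ℝ) ≤ m by linarith) h1
      linarith
    exact mul_le_mul_of_nonneg_left h0 hb0.le
  have h5 : m - 9 * (b * m ^ 3) ≤ a * X := by linarith
  have haX : 0 < a * X := by linarith
  have hX0 : 0 ≤ X := by
    by_contra hc
    push Not at hc
    have := mul_neg_of_pos_of_neg ha0 hc
    linarith
  have h6 : a * X ≤ 1 * X := mul_le_mul_of_nonneg_right ha1.le hX0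
  have h7 : b * m ^ 3 ≤ 2 * (1 - a) * m ^ 3 := mul_le_mul_of_nonneg_right hb2 (by positivity)
  linarith

/-- `e^y ≤ 1 + y + y²` for `|y| ≤ 1` -/
lemma exp_quad {y : ℝ} (hy : |y| ≤ 1) : Real.exp y ≤ 1 + y + y ^ 2 := by
  have h := Real.abs_exp_sub_one_sub_id_le hy
  have := (abs_le.1 h).2
  linarith

include hp ha0 ha1 hst in
/-- lower bound for the sum of the real parts, very close to the circle -/
lemma re_ge (hm : 2 ≤ m) (hU : ∑ k, ‖v k‖ ^ p ≤ m) (hε : (1 - a) * m ^ 7 ≤ 1) :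
    m - 18 * (1 - a) * m ^ 3 ≤ ∑ k, (v k).re := by
  have hm' : (2 : ℝ) ≤ m := by exact_mod_cast hm
  have hm0 : (0 : ℝ) < m := by linarith
  set X := ∑ k, (v k).re with hX
  set b := 1 - a ^ 2 with hb
  have hb0 : 0 < b := by rw [hb]; nlinarith
  have hb2 : b ≤ 2 * (1 - a) := by rw [hb]; nlinarith
  -- sizes
  have hvk : ∀ k, ‖v k‖ ≤ m := by
    intro k
    have h1 : ‖v k‖ ≤ ∑ j, ‖v j‖ :=
      Finset.single_le_sum (f := fun j => ‖v j‖) (fun j _ => norm_nonneg _) (Finset.mem_univ k)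
    exact h1.trans (sum_norm_le hp hU)
  have hV2 : ∑ k, ‖v k‖ ^ 2 ≤ m ^ 3 := by
    have h1 : ∑ k, ‖v k‖ ^ 2 ≤ ∑ _k : Fin m, (m : ℝ) ^ 2 :=
      Finset.sum_le_sum fun k _ => pow_le_pow_left₀ (norm_nonneg _) (hvk k) 2
    simp only [Finset.sum_const, Finset.card_univ, Fintype.card_fin, nsmul_eq_mul] at h1
    refine h1.trans (le_of_eq (by ring))
  have hXabs : |X| ≤ m := by
    have h1 : |X| ≤ ∑ k, ‖v k‖ := by
      rw [hX]
      refine (Finset.abs_sum_le_sum_abs _ _).trans (Finset.sum_le_sum fun k _ => ?_)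
      exact Complex.abs_re_le_norm _
    exact h1.trans (sum_norm_le hp hU)
  have hXb := abs_le.1 hXabs
  have hbm : b * m ^ 7 ≤ 2 := by nlinarith [mul_le_mul_of_nonneg_right hb2 (pow_pos hm0 7).le]
  have hm4 : (16 : ℝ) ≤ m ^ 4 := by
    have := pow_le_pow_left₀ (by norm_num) hm' 4
    norm_num at this
    exact this
  have hbm3 : b * m ^ 3 ≤ 1 / 8 := by
    have h1 : b * m ^ 7 = (b * m ^ 3) * m ^ 4 := by ring
    have h2 : 0 ≤ b * m ^ 3 := by positivity
    nlinarith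
  have hm2 : (4 : ℝ) ≤ m ^ 2 := by nlinarith
  have hbm1 : b * m ≤ 1 / 32 := by
    have h1 : b * m ^ 3 = (b * m) * m ^ 2 := by ring
    have h2 : 0 ≤ b * m := by positivity
    nlinarith
  -- pointwise
  set y : ℝ → ℝ := fun t => b / 2 * (-m + 2 * a * X * t + b * m ^ 3) with hy
  have hyb : ∀ t ∈ Set.Icc (0:ℝ) 1, |y t| ≤ 2 * b * m := by
    intro t ht
    have ht0 := ht.1
    have ht1 := ht.2
    have h1 : |a * t * X| ≤ m := by
      rw [abs_mul]
      have : |a * t| ≤ 1 := by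
        rw [abs_of_nonneg (by positivity)]; nlinarith
      have := mul_le_mul this hXabs (abs_nonneg _) zero_le_one
      linarith
    have h2 := abs_le.1 h1
    rw [hy]
    simp only
    rw [abs_le]
    constructor
    · have : -(4 * m) ≤ -m + 2 * a * X * t + b * m ^ 3 := by
        have : 0 ≤ b * (m : ℝ) ^ 3 := by positivity
        linarith
      nlinarith [mul_le_mul_of_nonneg_left this hb0.le]
    · have : -m + 2 * a * X * t + b * m ^ 3 ≤ 4 * m := by linarith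
      nlinarith [mul_le_mul_of_nonneg_left this hb0.le]
  have hpt : ∀ t ∈ Set.Icc (0:ℝ) 1, ∏ k, ‖(a : ℂ) + ((t * (1 - a ^ 2) : ℝ) : ℂ) * v k‖ ≤
      1 + b / 2 * (-m + b * m ^ 3) + 4 * b ^ 2 * m ^ 2 + b * a * X * t := by
    intro t ht
    have ht0 := ht.1
    have ht1 := ht.2
    have h1 : ∏ k, ‖(a : ℂ) + ((t * (1 - a ^ 2) : ℝ) : ℂ) * v k‖ ≤ Real.exp (y t) := by
      have h2 : ∀ k, ‖(a : ℂ) + ((t * (1 - a ^ 2) : ℝ) : ℂ) * v k‖ ≤
          Real.exp (b / 2 * (-1 + 2 * a * t * (v k).re + b * ‖v k‖ ^ 2)) := by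
        intro k
        have h3 : ‖(a : ℂ) + ((t * (1 - a ^ 2) : ℝ) : ℂ) * v k‖ ^ 2 =
            1 + b * (-1 + 2 * a * t * (v k).re + b * t ^ 2 * ‖v k‖ ^ 2) := by
          rw [Complex.sq_norm, Complex.normSq_apply, Complex.sq_norm, Complex.normSq_apply,
            Complex.add_re, Complex.add_im, Complex.re_ofReal_mul, Complex.im_ofReal_mul,
            Complex.ofReal_re, Complex.ofReal_im, hb]
          ring
        refine le_sq' ?_ (Real.exp_pos _).le
        rw [h3, ← Real.exp_nat_mul]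
        have h4 : 1 + b * (-1 + 2 * a * t * (v k).re + b * t ^ 2 * ‖v k‖ ^ 2) ≤
            1 + b * (-1 + 2 * a * t * (v k).re + b * ‖v k‖ ^ 2) := by
          have : t ^ 2 * ‖v k‖ ^ 2 ≤ 1 * ‖v k‖ ^ 2 :=
            mul_le_mul_of_nonneg_right (by nlinarith) (sq_nonneg _)
          have := mul_le_mul_of_nonneg_left this (mul_nonneg hb0.le hb0.le)
          nlinarith
        have h5 := Real.add_one_le_exp
          (((2 : ℕ) : ℝ) * (b / 2 * (-1 + 2 * a * t * (v k).re + b * ‖v k‖ ^ 2)))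
        refine h4.trans (le_trans (le_of_eq ?_) h5)
        push_cast
        ring
      refine (Finset.prod_le_prod (fun _ _ => norm_nonneg _) fun k _ => h2 k).trans ?_
      rw [← Real.exp_sum]
      refine Real.exp_le_exp.2 ?_
      rw [← Finset.mul_sum, hy]
      simp only
      refine mul_le_mul_of_nonneg_left ?_ (by positivity)
      rw [Finset.sum_add_distrib, Finset.sum_add_distrib, ← Finset.mul_sum, ← Finset.mul_sum]
      simp only [Finset.sum_const, Finset.card_univ, Fintype.card_fin, nsmul_eq_mul]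
      have := mul_le_mul_of_nonneg_left hV2 hb0.le
      have e : ∑ i, (v i).re = X := rfl
      rw [e]
      nlinarith
    have hya := hyb t ht
    have hy1 : |y t| ≤ 1 := by nlinarith
    have h3 := exp_quad hy1
    have h4 : y t ^ 2 ≤ 4 * b ^ 2 * m ^ 2 := by
      have := pow_le_pow_left₀ (abs_nonneg _) hya 2
      rw [sq_abs] at this
      refine this.trans (le_of_eq (by ring))
    have h5 : y t = b / 2 * (-m + b * m ^ 3) + b * a * X * t := by rw [hy]; ring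
    rw [h5] at h3 h4
    rw [h5] at h1
    linarith
  have h1 : (1 : ℝ) ≤ ∫ t in (0:ℝ)..1,
      (1 + b / 2 * (-m + b * m ^ 3) + 4 * b ^ 2 * m ^ 2 + b * a * X * t) := by
    refine hst.trans (intervalIntegral.integral_mono_on zero_le_one ?_ ?_ hpt)
    · apply Continuous.intervalIntegrable; fun_prop
    · apply Continuous.intervalIntegrable; fun_prop
  have h2 : ∫ t in (0:ℝ)..1,
      (1 + b / 2 * (-m + b * m ^ 3) + 4 * b ^ 2 * m ^ 2 + b * a * X * t) =
      1 + b / 2 * (-m + b * m ^ 3) + 4 * b ^ 2 * m ^ 2 + b * a * X / 2 := by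
    rw [intervalIntegral.integral_add (by simp) (by
      apply Continuous.intervalIntegrable; fun_prop), intervalIntegral.integral_const_mul,
      intervalIntegral.integral_const, integral_id]
    simp
    ring
  rw [h2] at h1
  -- b/2 (-m + b m^3 + 8 b m^2 + a X) ≥ 0
  have h3 : 0 ≤ -m + b * m ^ 3 + 8 * b * m ^ 2 + a * X := by
    have : 0 ≤ b / 2 * (-m + b * m ^ 3 + 8 * b * m ^ 2 + a * X) := by nlinarith
    by_contra hc
    push Not at hc
    have := mul_neg_of_pos_of_neg (show 0 < b / 2 by positivity) hc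
    linarith
  exact re_ge_arith hm' hb0 hb2 ha0 ha1 hbm3 h3

end

end Pool.Agent.H981.Sen
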